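import Pool.Agent.H99.SX.Defs
import Pool.Agent.H49.LS.ExC

/-!
# Avalanches

This is the first half of the proof of `H49.LS.completeC` (file `H49/LS/ExC.lean`), up to `hWP`; copy it.
-/

set_option autoImplicit false
set_option linter.unusedSectionVars false

namespace H99.SX

open Finset H97.Int H49.NB
open scoped Classical symmDiff

variable {V : Type} [Fintype V] [DecidableEq V] (G : SimpleGraph V) [DecidableRel G.Adj]

lemma dich {g M : ℕ} (hM1 : 1 ≤ M) (hgain : ∀ σ : Finset V, ∀ v, W G σ {v} < 0 → W G σ {v} ≤ -(g : ℤ))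
    (A : Finset V) : (∃ B : Finset V, (A ∆ B).card ≤ M ∧ ∀ v, 0 ≤ W G B {v}) ∨
      ∃ P : Finset V, P.card = M ∧ W G A P ≤ -((g : ℤ) * M) := by
  by_cases hB : ∃ B : Finset V, (A ∆ B).card ≤ M ∧ ∀ v, 0 ≤ W G B {v}
  · exact Or.inl hB
  right
  obtain ⟨S, hS⟩ : ∃ S : Finset (Finset V), S = Finset.univ.filter fun σ =>
    (A ∆ σ).card < M ∧ cut G σ + g * ((A ∆ σ).card : ℤ) ≤ cut G A := ⟨_, rfl⟩
  have hmem : ∀ σ, σ ∈ S ↔ (A ∆ σ).card < M ∧ cut G σ + g * ((A ∆ σ).card : ℤ) ≤ cut G A := by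
    intro σ
    rw [hS, mem_filter]
    simp
  have hAS : A ∈ S := by
    rw [hmem, symmDiff_self]
    simp only [Finset.bot_eq_empty, card_empty, Nat.cast_zero, mul_zero, add_zero]
    exact ⟨hM1, le_rfl⟩
  obtain ⟨σ, hσS, hmin⟩ := S.exists_min_image (fun σ => cut G σ) ⟨A, hAS⟩
  obtain ⟨h1, h2⟩ := (hmem σ).1 hσS
  have hex : ∃ v, ¬ 0 ≤ W G σ {v} := by
    by_contra hall
    push Not at hall
    exact hB ⟨σ, h1.le, hall⟩
  obtain ⟨v, hneg⟩ := hex
  have hneg' : W G σ {v} < 0 := not_le.1 hneg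
  have hg := hgain σ v hneg'
  have hcs : cut G (σ ∆ {v}) = cut G σ + W G σ {v} := cut_flip_set G σ {v}
  have hcard : (A ∆ (σ ∆ {v})).card ≤ (A ∆ σ).card + 1 := by
    rw [← symmDiff_assoc]
    have e : (A ∆ σ) ∆ {v} ⊆ (A ∆ σ) ∪ {v} := by
      intro x hx
      rw [mem_symmDiff] at hx
      rw [mem_union]
      tauto
    exact (card_le_card e).trans ((card_union_le _ _).trans (by rw [card_singleton]))
  have hlow : cut G (σ ∆ {v}) + g * ((A ∆ (σ ∆ {v})).card : ℤ) ≤ cut G A := by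
    have h3 : (g : ℤ) * ((A ∆ (σ ∆ {v})).card : ℤ) ≤ g * (((A ∆ σ).card : ℤ) + 1) :=
      mul_le_mul_of_nonneg_left (by exact_mod_cast hcard) (by positivity)
    rw [hcs]
    nlinarith
  have hnot : ¬ (A ∆ (σ ∆ {v})).card < M := by
    intro hlt
    have h3 := hmin _ ((hmem _).2 ⟨hlt, hlow⟩)
    have h4 : cut G σ ≤ cut G (σ ∆ {v}) := h3
    omega
  have hPM : (A ∆ (σ ∆ {v})).card = M := by omega
  refine ⟨A ∆ (σ ∆ {v}), hPM, ?_⟩
  have h3 := cut_flip_set G A (A ∆ (σ ∆ {v}))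
  rw [symmDiff_symmDiff_cancel_left] at h3
  rw [hPM] at hlow
  linarith

end H99.SX
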