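import Pool.Agent.H99.SX.Sd

/-!
# Cut edges inside a small set

`Q = (Q ∩ A) ∪ (Q \ A)`, `W_cup` for `G` and `fo par`, `Ed_cross` for both: `WW Q = WW (Q ∩ A) + WW (Q \ A) + 2 q E G (Q ∩ A) (Q \ A) + 2 E (fo par) (Q ∩ A) (Q \ A) ≥ 2 q E G (Q ∩ A) (Q \ A) = q Ed G A Q Q` (`Ed_self`), as both parts have at
most `s` vertices and are disjoint from `U`.
-/

set_option autoImplicit false
set_option linter.unusedSectionVars false

namespace H99.SX

open Finset H97.Int H49.NB
open scoped Classical symmDiff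

variable {V : Type} [Fintype V] [DecidableEq V] (G : SimpleGraph V) [DecidableRel G.Adj]

lemma base (par : V → V) {q s : ℕ} {A U : Finset V}
    (hA : ∀ Q : Finset V, Q.card ≤ s → Disjoint Q U → 0 ≤ WW G q par A Q) {Q : Finset V}
    (hQ : Q.card ≤ s) (hQU : Disjoint Q U) : (q : ℤ) * Ed G A Q Q ≤ WW G q par A Q := by
  have hd : Disjoint (Q ∩ A) (Q \ A) := by
    rw [Finset.disjoint_left]
    intro x hx hx'
    exact (Finset.mem_sdiff.1 hx').2 (Finset.mem_inter.1 hx).2
  have hu : Q ∩ A ∪ Q \ A = Q := by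
    ext x
    simp only [mem_union, mem_inter, mem_sdiff]
    tauto
  have h1 := W_cup G A hd
  have h2 := W_cup (fo par) A hd
  rw [hu, Ed_cross] at h1 h2
  have h3 := hA (Q ∩ A) (le_trans (Finset.card_le_card Finset.inter_subset_left) hQ)
    (Finset.disjoint_of_subset_left Finset.inter_subset_left hQU)
  have h4 := hA (Q \ A) (le_trans (Finset.card_le_card Finset.sdiff_subset) hQ)
    (Finset.disjoint_of_subset_left Finset.sdiff_subset hQU)
  have h5 := E_nonneg (fo par) (Q ∩ A) (Q \ A)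
  rw [Ed_self]
  unfold WW at h3 h4 ⊢
  rw [h1, h2]
  nlinarith [h3, h4, h5]

end H99.SX
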