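import Pool.Agent.H99.SX.Defs

/-!
# Edges with both ends on the same side, on different sides

All by sums. `E_eq_sd`: termwise. `Ed_symm`: `Finset.sum_comm`, `adj_symm`, `iff_comm`. `W_sd`: `adj * (spin u * spin v) = (same ? adj : 0) - (same ? 0 : adj)` (`spin A u * spin A v = 1` if `u ∈ A ↔ v ∈ A`, else `-1`). `W_cup`: `W_union` and
`∑ adj (spin spin) = E S T - 2 Ed S T`.
-/

set_option autoImplicit false
set_option linter.unusedSectionVars false

namespace H99.SX

open Finset H97.Int H49.NB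
open scoped Classical symmDiff

variable {V : Type} [Fintype V] [DecidableEq V] (G : SimpleGraph V) [DecidableRel G.Adj]

private lemma es_term_nonneg (A : Finset V) (u v : V) :
    0 ≤ (if (u ∈ A ↔ v ∈ A) then adj G u v else 0 : ℤ) := by
  split_ifs
  · exact adj_nonneg G u v
  · exact le_rfl

private lemma ed_term_nonneg (A : Finset V) (u v : V) :
    0 ≤ (if (u ∈ A ↔ v ∈ A) then 0 else adj G u v : ℤ) := by
  split_ifs
  · exact le_rfl
  · exact adj_nonneg G u v

private lemma es_term_symm (A : Finset V) (u v : V) :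
    (if (u ∈ A ↔ v ∈ A) then adj G u v else 0 : ℤ) =
      (if (v ∈ A ↔ u ∈ A) then adj G v u else 0 : ℤ) := by
  rw [adj_symm G u v]
  by_cases h : (u ∈ A ↔ v ∈ A)
  · rw [if_pos h, if_pos h.symm]
  · rw [if_neg h, if_neg fun h' => h h'.symm]

private lemma ed_term_symm (A : Finset V) (u v : V) :
    (if (u ∈ A ↔ v ∈ A) then 0 else adj G u v : ℤ) =
      (if (v ∈ A ↔ u ∈ A) then 0 else adj G v u : ℤ) := by
  rw [adj_symm G u v]
  by_cases h : (u ∈ A ↔ v ∈ A)
  · rw [if_pos h, if_pos h.symm]
  · rw [if_neg h, if_neg fun h' => h h'.symm]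

private lemma spin_term (A : Finset V) (u v : V) :
    adj G u v * (spin A u * spin A v) =
      (if (u ∈ A ↔ v ∈ A) then adj G u v else 0 : ℤ) -
        (if (u ∈ A ↔ v ∈ A) then 0 else adj G u v : ℤ) := by
  unfold spin
  by_cases hu : u ∈ A <;> by_cases hv : v ∈ A <;> simp [hu, hv]

lemma Es_nonneg (A S T : Finset V) : 0 ≤ Es G A S T := by
  unfold Es
  exact Finset.sum_nonneg fun u _ => Finset.sum_nonneg fun v _ => es_term_nonneg G A u v

lemma Ed_nonneg (A S T : Finset V) : 0 ≤ Ed G A S T := by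
  unfold Ed
  exact Finset.sum_nonneg fun u _ => Finset.sum_nonneg fun v _ => ed_term_nonneg G A u v

lemma E_eq_sd (A S T : Finset V) : E G S T = Es G A S T + Ed G A S T := by
  unfold E Es Ed
  rw [← Finset.sum_add_distrib]
  refine Finset.sum_congr rfl fun u _ => ?_
  rw [← Finset.sum_add_distrib]
  refine Finset.sum_congr rfl fun v _ => ?_
  split_ifs <;> simp

lemma Es_symm (A S T : Finset V) : Es G A S T = Es G A T S := by
  unfold Es
  rw [Finset.sum_comm]
  exact Finset.sum_congr rfl fun u _ => Finset.sum_congr rfl fun v _ => es_term_symm G A v u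

lemma Ed_symm (A S T : Finset V) : Ed G A S T = Ed G A T S := by
  unfold Ed
  rw [Finset.sum_comm]
  exact Finset.sum_congr rfl fun u _ => Finset.sum_congr rfl fun v _ => ed_term_symm G A v u

lemma Es_union_left (A : Finset V) {S S' : Finset V} (h : Disjoint S S') (T : Finset V) :
    Es G A (S ∪ S') T = Es G A S T + Es G A S' T := by
  unfold Es; rw [Finset.sum_union h]

lemma Ed_union_left (A : Finset V) {S S' : Finset V} (h : Disjoint S S') (T : Finset V) :
    Ed G A (S ∪ S') T = Ed G A S T + Ed G A S' T := by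
  unfold Ed; rw [Finset.sum_union h]

lemma Es_sum (A S T : Finset V) : Es G A S T = ∑ v ∈ S, Es G A {v} T := by
  unfold Es
  exact Finset.sum_congr rfl fun u _ => by rw [Finset.sum_singleton]

lemma Ed_sum (A S T : Finset V) : Ed G A S T = ∑ v ∈ S, Ed G A {v} T := by
  unfold Ed
  exact Finset.sum_congr rfl fun u _ => by rw [Finset.sum_singleton]

lemma Es_mono (A : Finset V) {S S' T T' : Finset V} (h : S ⊆ S') (h' : T ⊆ T') :
    Es G A S T ≤ Es G A S' T' := by
  unfold Es
  refine le_trans (Finset.sum_le_sum fun u _ => Finset.sum_le_sum_of_subset_of_nonneg h'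
    fun v _ _ => es_term_nonneg G A u v) ?_
  exact Finset.sum_le_sum_of_subset_of_nonneg h fun u _ _ =>
    Finset.sum_nonneg fun v _ => es_term_nonneg G A u v

lemma Ed_mono (A : Finset V) {S S' T T' : Finset V} (h : S ⊆ S') (h' : T ⊆ T') :
    Ed G A S T ≤ Ed G A S' T' := by
  unfold Ed
  refine le_trans (Finset.sum_le_sum fun u _ => Finset.sum_le_sum_of_subset_of_nonneg h'
    fun v _ _ => ed_term_nonneg G A u v) ?_
  exact Finset.sum_le_sum_of_subset_of_nonneg h fun u _ _ =>
    Finset.sum_nonneg fun v _ => ed_term_nonneg G A u v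

private lemma spin_sum (A S T : Finset V) :
    ∑ u ∈ S, ∑ v ∈ T, adj G u v * (spin A u * spin A v) = Es G A S T - Ed G A S T := by
  unfold Es Ed
  rw [← Finset.sum_sub_distrib]
  refine Finset.sum_congr rfl fun u _ => ?_
  rw [← Finset.sum_sub_distrib]
  exact Finset.sum_congr rfl fun v _ => spin_term G A u v

lemma W_sd (A S : Finset V) : W G A S = Es G A S Sᶜ - Ed G A S Sᶜ := by
  unfold W
  exact spin_sum G A S Sᶜ

lemma W_cup (A : Finset V) {S T : Finset V} (h : Disjoint S T) :
    W G A (S ∪ T) = W G A S + W G A T - 2 * E G S T + 4 * Ed G A S T := by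
  rw [W_union G A h, spin_sum, E_eq_sd G A S T]
  ring

lemma Ed_cup (A : Finset V) {S T : Finset V} (h : Disjoint S T) :
    Ed G A (S ∪ T) (S ∪ T) = Ed G A S S + Ed G A T T + 2 * Ed G A S T := by
  rw [Ed_union_left G A h, Ed_symm G A S (S ∪ T), Ed_symm G A T (S ∪ T), Ed_union_left G A h,
    Ed_union_left G A h, Ed_symm G A T S]
  ring

lemma E_cup {S T : Finset V} (h : Disjoint S T) :
    E G (S ∪ T) (S ∪ T) = E G S S + E G T T + 2 * E G S T := by
  rw [E_union_left G h, E_union_right G h, E_union_right G h, E_symm G T S]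
  ring

lemma Ed_cross (A Q : Finset V) : Ed G A (Q ∩ A) (Q \ A) = E G (Q ∩ A) (Q \ A) := by
  unfold Ed E
  refine Finset.sum_congr rfl fun u hu => Finset.sum_congr rfl fun v hv => ?_
  have h1 := (Finset.mem_inter.1 hu).2
  have h2 := (Finset.mem_sdiff.1 hv).2
  exact if_neg fun h => h2 (h.1 h1)

lemma Ed_self (A Q : Finset V) : Ed G A Q Q = 2 * E G (Q ∩ A) (Q \ A) := by
  have hd : Disjoint (Q ∩ A) (Q \ A) := by
    rw [Finset.disjoint_left]
    intro x hx hx'
    exact (Finset.mem_sdiff.1 hx').2 (Finset.mem_inter.1 hx).2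
  have hu : Q ∩ A ∪ Q \ A = Q := by
    ext x
    simp only [mem_union, mem_inter, mem_sdiff]
    tauto
  have h1 : Ed G A (Q ∩ A) (Q ∩ A) = 0 := by
    unfold Ed
    refine Finset.sum_eq_zero fun u hu => Finset.sum_eq_zero fun v hv => ?_
    have h1 := (Finset.mem_inter.1 hu).2
    have h2 := (Finset.mem_inter.1 hv).2
    exact if_pos ⟨fun _ => h2, fun _ => h1⟩
  have h2 : Ed G A (Q \ A) (Q \ A) = 0 := by
    unfold Ed
    refine Finset.sum_eq_zero fun u hu => Finset.sum_eq_zero fun v hv => ?_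
    have h1 := (Finset.mem_sdiff.1 hu).2
    have h2 := (Finset.mem_sdiff.1 hv).2
    exact if_pos ⟨fun h => absurd h h1, fun h => absurd h h2⟩
  have h3 := Ed_cup G A hd
  rw [hu, h1, h2, Ed_cross] at h3
  rw [h3]; ring

end H99.SX
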