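import Pool.Agent.H99.SX.Fo
import Pool.Agent.H99.SX.Sd

/-!
# Few exceptional edges

`N = Ed G A L L`, `ds = Es G A L Lᶜ`, `dd = Ed G A L Lᶜ`, `x = Ed (fo par) A L Lᶜ`, `y = Es (fo par) A L Lᶜ ≤ ds` (termwise, `fo_le`). `E G L L + ds + dd = 6 |L|` (`E_univ_right`, `E_union_right`, `E_eq_sd`), `W G A L = ds - dd`, `W (fo par) A L = y - x` (`W_sd`).
`h1`: `dd ≥ ds + 2 |L| - 18 |U|`, so `E G L L ≤ 4 |L| - 2 ds + 18 |U|`. `q W G A L = q (2 ds - 6 |L| + E G L L)`. `Eng`: `s₁ (q (2 ds - 6|L| + E L L) + ds - x - q N) ≥ - q s₁ (E L L - 2 |L|) - 2 q |L|`, so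
`s₁ (x + q N) ≤ s₁ q (2 ds - 8 |L| + 2 E L L) + s₁ ds + 2 q |L| ≤ s₁ q (- 2 ds + 36 |U|) + s₁ ds + 2 q |L|`.
-/

set_option autoImplicit false
set_option linter.unusedSectionVars false

namespace H99.SX

open Finset H97.Int H49.NB
open scoped Classical symmDiff

variable {V : Type} [Fintype V] [DecidableEq V] (G : SimpleGraph V) [DecidableRel G.Adj]

lemma fo_Es {par : V → V} (hp : Par G par) (A S T : Finset V) : Es (fo par) A S T ≤ Es G A S T := by
  unfold Es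
  refine Finset.sum_le_sum fun u _ => Finset.sum_le_sum fun v _ => ?_
  by_cases h : (u ∈ A ↔ v ∈ A)
  · rw [if_pos h, if_pos h]
    unfold adj
    by_cases h1 : (fo par).Adj u v
    · rw [if_pos h1, if_pos (fo_le G hp h1)]
    · rw [if_neg h1]
      split_ifs
      · exact zero_le_one
      · exact le_rfl
  · rw [if_neg h, if_neg h]

theorem bound {par : V → V} (hp : Par G par) (hd : ∀ v, G.degree v = 6) {q s₁ : ℕ} {A U L : Finset V}
    (h1 : W G A L ≤ -(2 * (L.card : ℤ)) + 18 * U.card) (h2 : Eng G q s₁ par A L) :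
    E G L L ≤ 4 * L.card + 18 * U.card ∧
    (s₁ : ℤ) * (Ed (fo par) A L Lᶜ + q * Ed G A L L + (2 * q - 1) * Es G A L Lᶜ) ≤
      36 * q * s₁ * U.card + 2 * q * L.card := by
  have e1 : E G L L + (Es G A L Lᶜ + Ed G A L Lᶜ) = 6 * (L.card : ℤ) := by
    rw [← E_eq_sd, ← E_union_right G (disjoint_compl_right), Finset.union_compl, E_eq_sum_nin,
      Finset.sum_congr rfl fun v _ => by rw [nin_univ, hd v], Finset.sum_const, nsmul_eq_mul]
    push_cast
    ring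
  have e2 := W_sd G A L
  have e3 := W_sd (fo par) A L
  have e4 := fo_Es G hp A L Lᶜ
  have e5 := Es_nonneg G A L Lᶜ
  unfold Eng WW at h2
  rw [e3] at h2
  rw [e2] at h1 h2
  have hs : (0 : ℤ) ≤ s₁ := Int.natCast_nonneg _
  have hq : (0 : ℤ) ≤ q := Int.natCast_nonneg _
  set e := E G L L
  set ds := Es G A L Lᶜ
  set dd := Ed G A L Lᶜ
  set x := Ed (fo par) A L Lᶜ
  set y := Es (fo par) A L Lᶜ
  set N := Ed G A L L
  set l := (L.card : ℤ)
  set u := (U.card : ℤ)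
  have e6 : e = 6 * l - ds - dd := by linarith
  refine ⟨by linarith, ?_⟩
  have k1 : (s₁ : ℤ) * q * (4 * l - 2 * dd) ≤ s₁ * q * (36 * u - 2 * ds) :=
    mul_le_mul_of_nonneg_left (by linarith) (mul_nonneg hs hq)
  have k2 : (s₁ : ℤ) * y ≤ s₁ * ds := mul_le_mul_of_nonneg_left e4 hs
  rw [e6] at h2
  linarith

end H99.SX
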