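import Pool.Agent.H99.SX.Fo

/-!
# Hubs with all neighbours in `L`

`ρ v = par (par v)`; `ρ v` is a hub (`hp.two`). `L' =` the vertices of `L` with a neighbour in `fo par` outside `L`; `|L'| ≤ E (fo par) L Lᶜ` (`E_eq_sum_nin`, terms at least `1` on `L'`, `nin_eq_zero_iff`). Claim: `L.image ρ ⊆ hubs ∪ L'.image ρ`:
let `v ∈ L`, `z = ρ v`, and assume that no `w ∈ L` with `ρ w = z` is in `L'`. Then `par v ∈ L` (`par v = v` or `fo`-adjacent to `v`), `ρ (par v) = z` (`hp.two`), so `z = par (par v) ∈ L` in the same way, `ρ z = z`, and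
every neighbour `u` of `z` has `par u = z`, `u ≠ z`, so is `fo`-adjacent to `z`, so in `L`. The fibres of `ρ` have at most `49` members (`v ∈ nb G 2 {ρ v}`, `card_nb_le`), so `|L| ≤ 49 |L.image ρ|` (`card_le_mul_card_image`).
`hubs_sub`: a vertex of `hubs` has `nin G z L = degree = 6 ≥ 5`, so it is in `Pp` or in `B`.
-/

set_option autoImplicit false
set_option linter.unusedSectionVars false

namespace H99.SX

open Finset H97.Int H49.NB
open scoped Classical symmDiff

variable {V : Type} [Fintype V] [DecidableEq V] (G : SimpleGraph V) [DecidableRel G.Adj]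

/-- the hubs of `L` with all neighbours in `L` -/
noncomputable def hubs (par : V → V) (L : Finset V) : Finset V :=
  L.filter fun z => par z = z ∧ ∀ u, G.Adj z u → u ∈ L

private lemma cla_mem {par : V → V} (hp : Par G par) (v : V) : v ∈ nb G 2 {par (par v)} := by
  have h1 : par v ∈ nbr G {par (par v)} := by
    rw [mem_nbr]
    rcases hp.adj (par v) with h | h
    · left
      rw [h]
      simp
    · right
      exact ⟨par (par v), by simp, h.symm⟩
  show v ∈ nbr G (nbr G {par (par v)})
  rw [mem_nbr]
  rcases hp.adj v with h | h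
  · left
    simpa only [h] using h1
  · right
    exact ⟨par v, h1, h.symm⟩

theorem hubs_card {par : V → V} (hp : Par G par) (hd : ∀ v, G.degree v ≤ 6) (L : Finset V) :
    (L.card : ℤ) ≤ 49 * ((hubs G par L).card : ℤ) + 49 * E (fo par) L Lᶜ := by
  classical
  set L' : Finset V := L.filter fun v => ∃ u, u ∉ L ∧ (fo par).Adj v u with hL'
  have h1 : L.card ≤ 49 * (L.image fun v => par (par v)).card := by
    refine card_le_mul_card_image L 49 fun z _ => ?_
    have hsub : (L.filter fun v => par (par v) = z) ⊆ nb G 2 {z} := by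
      intro v hv
      rw [mem_filter] at hv
      rw [← hv.2]
      exact cla_mem G hp v
    refine (card_le_card hsub).trans ((card_nb_le G hd 2 {z}).trans ?_)
    simp
  have h2 : (L.image fun v => par (par v)) ⊆ hubs G par L ∪ L'.image fun v => par (par v) := by
    intro z hz
    rw [mem_image] at hz
    obtain ⟨v, hv, rfl⟩ := hz
    by_cases hw : ∃ w ∈ L', par (par w) = par (par v)
    · obtain ⟨w, hw, hwz⟩ := hw
      exact mem_union_right _ (mem_image.2 ⟨w, hw, hwz⟩)
    · push Not at hw
      have key : ∀ w ∈ L, par (par w) = par (par v) → ∀ u, (fo par).Adj w u → u ∈ L := by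
        intro w hwL hwz u hu
        by_contra hc
        exact hw w (mem_filter.2 ⟨hwL, u, hc, hu⟩) hwz
      have step : ∀ w ∈ L, par (par w) = par (par v) → par w ∈ L := by
        intro w hwL hwz
        by_cases h : w = par w
        · rw [← h]
          exact hwL
        · exact key w hwL hwz (par w) ⟨h, Or.inl rfl⟩
      have a1 := step v hv rfl
      have a2 : par (par (par v)) = par (par v) := hp.two v
      have a3 := step (par v) a1 a2
      refine mem_union_left _ (mem_filter.2 ⟨a3, a2, fun u hu => ?_⟩)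
      refine key _ a3 (by rw [a2, a2]) u ⟨hu.ne, Or.inr ?_⟩
      exact hp.hub _ a2 u hu
  have h3 : (L'.card : ℤ) ≤ E (fo par) L Lᶜ := by
    rw [E_eq_sum_nin]
    have h4 : ∑ v ∈ L', nin (fo par) v Lᶜ ≤ ∑ v ∈ L, nin (fo par) v Lᶜ :=
      sum_le_sum_of_subset_of_nonneg (filter_subset _ _) fun v _ _ => nin_nonneg _ _ _
    refine le_trans ?_ h4
    rw [card_eq_sum_ones, Nat.cast_sum]
    refine sum_le_sum fun v hv => ?_
    rw [mem_filter] at hv
    obtain ⟨_, u, hu, huv⟩ := hv
    have h5 : nin (fo par) v Lᶜ ≠ 0 := by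
      intro h0
      exact (nin_eq_zero_iff (fo par) v Lᶜ).1 h0 u (by simpa using hu) huv
    have h6 := nin_nonneg (fo par) v Lᶜ
    push_cast
    omega
  have h4 : (L.image fun v => par (par v)).card ≤ (hubs G par L).card + L'.card :=
    (card_le_card h2).trans ((card_union_le _ _).trans (Nat.add_le_add_left card_image_le _))
  have h5 : (L.card : ℤ) ≤ 49 * (((hubs G par L).card : ℤ) + (L'.card : ℤ)) := by
    exact_mod_cast h1.trans (Nat.mul_le_mul_left 49 h4)
  linarith

lemma hubs_sub (par : V → V) (hd : ∀ v, G.degree v = 6) (L B : Finset V) :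
    (hubs G par L).card ≤ (Pp G L B).card + B.card := by
  refine (card_le_card (t := Pp G L B ∪ B) fun z hz => ?_).trans (card_union_le _ _)
  unfold hubs at hz
  rw [mem_filter] at hz
  obtain ⟨hzL, _, hz⟩ := hz
  by_cases hB : z ∈ B
  · exact mem_union_right _ hB
  · refine mem_union_left _ ?_
    unfold Pp
    refine mem_filter.2 ⟨mem_sdiff.2 ⟨hzL, hB⟩, ?_⟩
    have h1 : G.neighborFinset z ∩ L = G.neighborFinset z :=
      inter_eq_left.2 fun u hu => hz u ((G.mem_neighborFinset z u).1 hu)
    rw [nin_eq, h1, G.card_neighborFinset_eq_degree, hd z]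
    norm_num

end H99.SX
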