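import Pool.Agent.H99.SX.Wq

/-!
# Good vertices

`bad_card`: every `v ∈ bad G A L` contributes at least `1` to `Ed G A L L + Es G A L Lᶜ = ∑_{v ∈ L} (Ed {v} L + Es {v} Lᶜ)` (`Ed_sum`, `Es_sum`). `W_good`: `Q ⊆ L \ bad`: `Qᶜ = (L \ Q) ∪ Lᶜ`; `Ed G A Q (L \ Q) ≤ Ed G A Q L = 0`, `Es G A Q Lᶜ = 0`
(sums over `v ∈ Q`); `W_sd`: `W G A Q = Es Q (L \ Q) + Es Q Lᶜ - Ed Q (L \ Q) - Ed Q Lᶜ = E Q (L \ Q) - E Q Lᶜ = (E Q L - E Q Q) - (6 |Q| - E Q L)`. `good_hyp`: `W_nn`, `W_good`.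
-/

set_option autoImplicit false
set_option linter.unusedSectionVars false

namespace H99.SX

open Finset H97.Int H49.NB
open scoped Classical symmDiff

variable {V : Type} [Fintype V] [DecidableEq V] (G : SimpleGraph V) [DecidableRel G.Adj]

private lemma Gd_E_right {S T T' : Finset V} (A : Finset V) (h : Disjoint T T') :
    Es G A S (T ∪ T') = Es G A S T + Es G A S T' ∧ Ed G A S (T ∪ T') = Ed G A S T + Ed G A S T' := by
  constructor
  · rw [Es_symm G A S, Es_union_left G A h, Es_symm G A T, Es_symm G A T']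
  · rw [Ed_symm G A S, Ed_union_left G A h, Ed_symm G A T, Ed_symm G A T']

lemma bad_card (A L : Finset V) : ((bad G A L).card : ℤ) ≤ Ed G A L L + Es G A L Lᶜ := by
  rw [Ed_sum G A L L, Es_sum G A L Lᶜ, ← Finset.sum_add_distrib]
  have h1 : ((bad G A L).card : ℤ) = ∑ v ∈ bad G A L, (1 : ℤ) := by simp
  rw [h1]
  calc ∑ v ∈ bad G A L, (1 : ℤ) ≤ ∑ v ∈ bad G A L, (Ed G A {v} L + Es G A {v} Lᶜ) := by
        refine Finset.sum_le_sum fun v hv => ?_
        have hv2 := (Finset.mem_filter.1 hv).2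
        have e1 := Ed_nonneg G A {v} L
        have e2 := Es_nonneg G A {v} Lᶜ
        rcases hv2 with h | h <;> omega
    _ ≤ ∑ v ∈ L, (Ed G A {v} L + Es G A {v} Lᶜ) := by
        refine Finset.sum_le_sum_of_subset_of_nonneg (Finset.filter_subset _ _) fun v _ _ => ?_
        have e1 := Ed_nonneg G A {v} L
        have e2 := Es_nonneg G A {v} Lᶜ
        omega

lemma W_good (hd : ∀ v, G.degree v = 6) {A L Q : Finset V} (hQ : Q ⊆ L \ bad G A L) :
    W G A Q = 2 * E G Q L - E G Q Q - 6 * Q.card := by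
  have hQL : Q ⊆ L := fun v hv => (Finset.mem_sdiff.1 (hQ hv)).1
  have hv0 : ∀ v ∈ Q, Ed G A {v} L = 0 ∧ Es G A {v} Lᶜ = 0 := by
    intro v hv
    have h1 := (Finset.mem_sdiff.1 (hQ hv)).2
    by_contra hne
    apply h1
    refine Finset.mem_filter.2 ⟨hQL hv, ?_⟩
    by_contra h2
    push Not at h2
    exact hne h2
  have h1 : Ed G A Q L = 0 := by
    rw [Ed_sum]
    exact Finset.sum_eq_zero fun v hv => (hv0 v hv).1
  have h2 : Es G A Q Lᶜ = 0 := by
    rw [Es_sum]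
    exact Finset.sum_eq_zero fun v hv => (hv0 v hv).2
  have hdis : Disjoint (L \ Q) Lᶜ :=
    Finset.disjoint_left.2 fun v hv hv' => (Finset.mem_compl.1 hv') (Finset.mem_sdiff.1 hv).1
  have hcov : Qᶜ = (L \ Q) ∪ Lᶜ := by
    ext v
    simp only [Finset.mem_compl, Finset.mem_union, Finset.mem_sdiff]
    constructor
    · intro h
      by_cases hL : v ∈ L
      · exact Or.inl ⟨hL, h⟩
      · exact Or.inr hL
    · rintro (h | h)
      · exact h.2
      · exact fun h' => h (hQL h')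
  obtain ⟨a1, a2⟩ := Gd_E_right G (S := Q) A hdis
  have h3 : Ed G A Q (L \ Q) = 0 := by
    have := Ed_mono G A (S := Q) (S' := Q) (subset_refl Q) (Finset.sdiff_subset (s := L) (t := Q))
    have h0 := Ed_nonneg G A Q (L \ Q)
    omega
  have h4 := W_sd G A Q
  rw [hcov, a1, a2, h2, h3] at h4
  have h5 := E_eq_sd G A Q (L \ Q)
  have h6 := E_eq_sd G A Q Lᶜ
  have h7 : E G Q L = E G Q Q + E G Q (L \ Q) := by
    rw [← E_union_right G Finset.disjoint_sdiff, Finset.union_sdiff_of_subset hQL]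
  have h8 : E G Q L + E G Q Lᶜ = 6 * Q.card := by
    rw [← E_union_right G disjoint_compl_right, Finset.union_compl, E_eq_sum_nin]
    rw [Finset.sum_congr rfl fun v _ => (by rw [nin_univ, hd v] : nin G v univ = ((6 : ℕ) : ℤ))]
    rw [Finset.sum_const, nsmul_eq_mul]
    push_cast
    ring
  linarith

theorem good_hyp {par : V → V} (hp : Par G par) (hd : ∀ v, G.degree v = 6) {q s S₂ : ℕ} {A U L : Finset V}
    (hA : ∀ Q : Finset V, Q.card ≤ s → Disjoint Q U → 0 ≤ WW G q par A Q) (hLU : Disjoint L U)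
    (hs : S₂ ≤ s) (hq : 6 * S₂ + 1 ≤ q) : Hyp G S₂ L (bad G A L) := by
  intro Q hQ hQS
  have hQL : Q ⊆ L := fun v hv => (Finset.mem_sdiff.1 (hQ hv)).1
  have h1 : 0 ≤ WW G q par A Q := hA Q (hQS.trans hs) (Finset.disjoint_of_subset_left hQL hLU)
  have h2 := W_nn G hp (fun v => (hd v).le) (by omega : 6 * Q.card + 1 ≤ q) h1
  rw [W_good G hd hQ] at h2
  linarith

end H99.SX
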