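import Pool.Agent.H99.SX.LcF

/-!
# The local lemma

`m` from `family`. `L = Pp ∪ Lo ∪ (L ∩ B)` (disjoint). `∑_{v ∈ L} (nin G v L - 4) = E G L L - 4 |L| ≤ T` (`E_eq_sum_nin`). `∑_{v ∈ Lo} (nin - 4) = - |Mi|` (`E_lo` with `Q = Lo`, `Mi ⊆ Lo`), `∑_{v ∈ L ∩ B} (nin - 4) ≥ - 4 |B|`. So
`∑_{Pp} (nin - 4) ≤ |Mi| + T + 4 |B|`. With `3 |Mi| r₁ ≤ 3 r₁ m + 3 |L|` and `3 m ≤ ∑_{Pp} (nin - 3) + 6 |B|`:
`r₁ ∑_{Pp} (3 (nin - 4) - (nin - 3)) ≤ r₁ (3 T + 18 |B|) + 3 |L|`, and `3 (nin - 4) - (nin - 3) = 2 nin - 9 ≥ 1` on `Pp`.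
-/

set_option autoImplicit false
set_option linter.unusedSectionVars false

namespace H99.SX

open Finset H97.Int H49.NB
open scoped Classical symmDiff

variable {V : Type} [Fintype V] [DecidableEq V] (G : SimpleGraph V) [DecidableRel G.Adj]

theorem local_lemma (hd : ∀ v, G.degree v ≤ 6) {S₂ r₁ : ℕ} {L B : Finset V} (hH : Hyp G S₂ L B)
    (h1 : 1 ≤ r₁) (hS : 6 * r₁ + 1 ≤ S₂) {T : ℤ} (hT : E G L L ≤ 4 * L.card + T) :
    (r₁ : ℤ) * (Pp G L B).card ≤ r₁ * (3 * T + 18 * B.card) + 3 * L.card := by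
  obtain ⟨m, hm1, hm2⟩ := family G hd hH h1 hS
  have hr0 : (0 : ℤ) ≤ r₁ := Int.natCast_nonneg _
  -- the sum over `L`
  have hL : ∑ v ∈ L, (nin G v L - 4) ≤ T := by
    rw [Finset.sum_sub_distrib, ← E_eq_sum_nin, Finset.sum_const, nsmul_eq_mul]
    linarith
  have hsp : ∑ v ∈ L, (nin G v L - 4) = ∑ v ∈ L \ B, (nin G v L - 4) + ∑ v ∈ L ∩ B, (nin G v L - 4) := by
    rw [← Finset.sum_union (Finset.disjoint_sdiff_inter L B), Finset.sdiff_union_inter]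
  have hsp2 : ∑ v ∈ L \ B, (nin G v L - 4) =
      ∑ v ∈ Pp G L B, (nin G v L - 4) + ∑ v ∈ Lo G L B, (nin G v L - 4) := by
    have e1 : Lo G L B = (L \ B).filter fun v => ¬ 5 ≤ nin G v L := by
      unfold Lo
      refine Finset.filter_congr fun v _ => ?_
      constructor
      · intro h; omega
      · intro h; omega
    rw [e1]
    unfold Pp
    exact (Finset.sum_filter_add_sum_filter_not _ _ _).symm
  have hMi : Lo G L B ∩ Mi G L B = Mi G L B := by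
    refine Finset.inter_eq_right.2 fun v hv => ?_
    unfold Mi at hv
    unfold Lo
    rw [Finset.mem_filter] at hv ⊢
    exact ⟨hv.1, by rw [hv.2]; norm_num⟩
  have hLo : ∑ v ∈ Lo G L B, (nin G v L - 4) = -((Mi G L B).card : ℤ) := by
    have e1 := E_lo G hH (by omega : 1 ≤ S₂) (Finset.Subset.refl (Lo G L B))
    rw [hMi, E_eq_sum_nin] at e1
    rw [Finset.sum_sub_distrib, e1, Finset.sum_const, nsmul_eq_mul]
    ring
  have hB : -(4 * (B.card : ℤ)) ≤ ∑ v ∈ L ∩ B, (nin G v L - 4) := by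
    have e1 : ∑ v ∈ L ∩ B, (-4 : ℤ) ≤ ∑ v ∈ L ∩ B, (nin G v L - 4) :=
      Finset.sum_le_sum fun v _ => by have := nin_nonneg G v L; linarith
    rw [Finset.sum_const, nsmul_eq_mul] at e1
    have e2 : ((L ∩ B).card : ℤ) ≤ B.card := by exact_mod_cast Finset.card_le_card Finset.inter_subset_right
    linarith
  have hP1 : ((Pp G L B).card : ℤ) ≤ ∑ v ∈ Pp G L B, (nin G v L - 4) := by
    have e1 : ∑ v ∈ Pp G L B, (1 : ℤ) ≤ ∑ v ∈ Pp G L B, (nin G v L - 4) :=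
      Finset.sum_le_sum fun v hv => by
        unfold Pp at hv
        have := (Finset.mem_filter.1 hv).2
        linarith
    rwa [Finset.sum_const, nsmul_eq_mul, mul_one] at e1
  have hP2 : ∑ v ∈ Pp G L B, (nin G v L - 3) = ∑ v ∈ Pp G L B, (nin G v L - 4) + (Pp G L B).card := by
    rw [Finset.sum_sub_distrib, Finset.sum_sub_distrib, Finset.sum_const, Finset.sum_const, nsmul_eq_mul,
      nsmul_eq_mul]
    ring
  set a := ∑ v ∈ Pp G L B, (nin G v L - 4) with ha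
  set P : ℤ := ((Pp G L B).card : ℤ) with hPd
  set M : ℤ := ((Mi G L B).card : ℤ) with hMd
  have h3 : a ≤ M + T + 4 * B.card := by linarith
  have h4 : 3 * m ≤ a + P + 6 * B.card := by linarith
  have h5 := mul_le_mul_of_nonneg_left h3 hr0
  have h6 := mul_le_mul_of_nonneg_left h4 hr0
  have h7 := mul_le_mul_of_nonneg_left hP1 hr0
  linarith

end H99.SX
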