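import Mathlib

/-!
# The numerical contradiction

`Y = x + q N + (2 q - 1) ds`; `294 q Y ≤ 36 q (294 q) u + 2 q l`, divide by `2 q`: `147 Y ≤ 147 * 36 q u + l`. `19 b + x + ds ≤ 19 N + 20 ds + x ≤ Y` (`q ≥ 21`). `l ≤ 49 p + 49 b + 49 (x + ds)`, `3 * 49 p * 3 ≤ ...`: from `441 p ≤ 441 (54 u + 18 b) + 3 l`:
`147 p ≤ 147 (54 u + 18 b) + l`. So `3 l ≤ 147 (54 u + 19 b + x + ds) + l`, `2 l ≤ 147 (54 u + Y) ≤ 147 * 54 u + 147 * 36 q u + l`.
-/

set_option autoImplicit false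

namespace H99.SX

lemma num {l u p b N ds x y q s₁ : ℤ} (hq : 21 ≤ q) (hs : s₁ = 294 * q) (hN : 0 ≤ N) (hds : 0 ≤ ds)
    (h1 : l ≤ 49 * (p + b) + 49 * (x + y)) (hy : y ≤ ds)
    (h2 : 441 * p ≤ 441 * (3 * (18 * u) + 18 * b) + 3 * l) (hb : b ≤ N + ds)
    (h3 : s₁ * (x + q * N + (2 * q - 1) * ds) ≤ 36 * q * s₁ * u + 2 * q * l) :
    l ≤ 147 * (54 + 36 * q) * u := by
  have hq0 : (0 : ℤ) < 2 * q := by linarith
  have h3' : 147 * (x + q * N + (2 * q - 1) * ds) ≤ 147 * 36 * q * u + l := by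
    refine le_of_mul_le_mul_left ?_ hq0
    have e1 : 2 * q * (147 * (x + q * N + (2 * q - 1) * ds))
        = s₁ * (x + q * N + (2 * q - 1) * ds) := by rw [hs]; ring
    have e2 : 2 * q * (147 * 36 * q * u + l) = 36 * q * s₁ * u + 2 * q * l := by rw [hs]; ring
    rw [e1, e2]
    exact h3
  have h4 : 21 * N ≤ q * N := mul_le_mul_of_nonneg_right hq hN
  have h5 : 41 * ds ≤ (2 * q - 1) * ds := mul_le_mul_of_nonneg_right (by linarith) hds
  have h6 : 147 * (54 + 36 * q) * u = 147 * 54 * u + 147 * 36 * q * u := by ring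
  rw [h6]
  linarith

end H99.SX
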