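import Pool.Agent.H99.SX.Tg
import Pool.Agent.H99.SX.Bd
import Pool.Agent.H99.SX.Gd
import Pool.Agent.H99.SX.Loc
import Pool.Agent.H99.SX.ClA
import Pool.Agent.H99.SX.Num
import Pool.Agent.H99.SX.Av
import Pool.Agent.H49.LS.ExB

/-!
# Completion to an exact internal partition

`r₁ = 441`, `S₂ = 6 * 441 + 1 = 2647`, `q = 6 * 2647 + 1 = 15883`, `s₁ = 294 q`, `s = 49 * (294 * s₁)`, `c = 5 * (147 * (54 + 36 q)) + 18`. `M ≥ 1`. `dich` with `g = 2` (`gain` from `H49/LS/ExB`, the degrees `6` are even): in the second case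
`P` with `|P| = M`, `W G A P ≤ - 2 M`. `target`: `L`. `bound`, `good_hyp` (`B = bad G A L`), `bad_card`, `local_lemma` (`T = 18 |U|`), `hubs_card`, `hubs_sub`, `E (fo par) L Lᶜ = Es + Ed` (`E_eq_sd`), `fo_Es`; `num` with `l = |L|`, `u = |U|`,
`p = |Pp|`, `b = |B|`, `N = Ed G A L L`, `ds = Es G A L Lᶜ`, `x = Ed (fo par) A L Lᶜ`, `y = Es (fo par) A L Lᶜ`: `|L| ≤ 147 (54 + 36 q) |U|`, so `M = |P| ≤ 5 |L| + 18 |U| ≤ c |U| < M`.
-/

set_option autoImplicit false
set_option linter.unusedSectionVars false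

namespace H99.SX

open Finset H97.Int H49.NB
open scoped Classical symmDiff

private theorem com_aux {q s₁ s : ℕ} (hq : 15883 ≤ q) (hs₁ : s₁ = 294 * q) (hs : 49 * (294 * s₁) ≤ s)
    {V : Type} [Fintype V] [DecidableEq V] (G : SimpleGraph V) [DecidableRel G.Adj] {par : V → V}
    (hd : ∀ v, G.degree v = 6) (hp : Par G par) {A U : Finset V}
    (hA : ∀ Q : Finset V, Q.card ≤ s → Disjoint Q U → 0 ≤ WW G q par A Q) {M : ℕ}
    (hM : (5 * (147 * (54 + 36 * q)) + 18) * U.card < M) :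
    ∃ B : Finset V, (A ∆ B).card ≤ M ∧ ∀ v, 0 ≤ W G B {v} := by
  have hM1 : 1 ≤ M := by omega
  have hd' : ∀ v, G.degree v ≤ 6 := fun v => (hd v).le
  have hg : ∀ σ : Finset V, ∀ v, W G σ {v} < 0 → W G σ {v} ≤ -((2 : ℕ) : ℤ) := fun σ v h =>
    H49.LS.gain G (g := 2) (Or.inr ⟨rfl, fun v => by rw [hd]; decide⟩) σ v h
  rcases dich G hM1 hg A with h | ⟨P, hPM, hP⟩
  · exact h
  · exfalso
    obtain ⟨L, hLU, hPL, hWL, hEng⟩ := target G hp hd' hA (by omega) hs (by omega)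
      (P := P) (by rw [hPM]; push_cast at hP; exact hP)
    obtain ⟨hE, hX⟩ := bound G hp hd hWL hEng
    have hH := good_hyp G hp hd hA hLU (S₂ := 2647) (by omega) (by omega)
    have hbad := bad_card G A L
    have hloc := local_lemma G hd' hH (r₁ := 441) (by norm_num) (by norm_num) (T := 18 * U.card) hE
    have hhub := hubs_card G hp hd' L
    have hsub := hubs_sub G par hd L (bad G A L)
    rw [E_eq_sd (fo par) A L Lᶜ] at hhub
    have hy := fo_Es G hp A L Lᶜ
    have hN := Ed_nonneg G A L L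
    have hds := Es_nonneg G A L Lᶜ
    have hsub' : ((hubs G par L).card : ℤ) ≤ (Pp G L (bad G A L)).card + (bad G A L).card := by
      exact_mod_cast hsub
    have hq' : (21 : ℤ) ≤ q := by
      have : (15883 : ℤ) ≤ q := by exact_mod_cast hq
      linarith
    have hs₁' : (s₁ : ℤ) = 294 * q := by rw [hs₁]; push_cast; ring
    have key := num (l := (L.card : ℤ)) (u := U.card) (p := (Pp G L (bad G A L)).card)
      (b := (bad G A L).card) (N := Ed G A L L) (ds := Es G A L Lᶜ) (x := Ed (fo par) A L Lᶜ)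
      (y := Es (fo par) A L Lᶜ) (q := q) (s₁ := s₁) hq' hs₁' hN hds (by linarith) hy
      (by push_cast at hloc; exact hloc) hbad hX
    have h1 : (M : ℤ) ≤ 5 * L.card + 18 * U.card := by
      rw [← hPM]
      exact hPL
    have h2 : (((5 * (147 * (54 + 36 * q)) + 18) * U.card : ℕ) : ℤ) < M := by exact_mod_cast hM
    push_cast at h2
    nlinarith

theorem complete6 : ∃ q s c : ℕ, 1 ≤ s ∧ 1 ≤ c ∧ ∀ (V : Type) [Fintype V] [DecidableEq V]
    (G : SimpleGraph V) [DecidableRel G.Adj] (par : V → V), (∀ v, G.degree v = 6) → Par G par →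
    ∀ A U : Finset V, (∀ Q : Finset V, Q.card ≤ s → Disjoint Q U → 0 ≤ WW G q par A Q) →
    ∀ M : ℕ, c * U.card < M → ∃ B : Finset V, (A ∆ B).card ≤ M ∧ ∀ v, 0 ≤ W G B {v} := by
  refine ⟨15883, 49 * (294 * (294 * 15883)), 5 * (147 * (54 + 36 * 15883)) + 18, by norm_num,
    by norm_num, ?_⟩
  intro V _ _ G _ par hd hp A U hA M hM
  exact com_aux (q := 15883) le_rfl rfl le_rfl G hd hp hA hM

end H99.SX
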