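import Pool.Agent.H99.SX.Defs

/-!
# Few conflicts, for any local function

Exactly the proof of `H49.LS.conf_card` (file `H49/LS/CutL.lean`), which does not use what `H` is (`swp_nbr` is private there, copy it).
-/

set_option autoImplicit false
set_option linter.unusedSectionVars false

namespace H99.SX

open Finset H97.Int H49.NB
open scoped Classical symmDiff

variable {V : Type} [Fintype V] [DecidableEq V] (G : SimpleGraph V) [DecidableRel G.Adj]

private lemma Conf_swp {D D' : Finset V} (h : Disjoint D' (nbr G D)) : Disjoint D (nbr G D') := by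
  rw [Finset.disjoint_left] at h ⊢
  intro x hx hx'
  rcases (mem_nbr G).1 hx' with h1 | ⟨u, hu, hux⟩
  · exact h h1 (subset_nbr G D hx)
  · exact h hu ((mem_nbr G).2 (Or.inr ⟨x, hx, hux.symm⟩))

lemma conf_gen {d s : ℕ} (hd : ∀ v, G.degree v ≤ d) {H : Finset V → ℕ} (τ : Finset V)
    (𝓦 : Finset (Finset V)) (h : H49.LS.Far (nbr G) s H τ 𝓦) (u : Finset V) (hu : u.card ≤ s) :
    (𝓦.filter fun w => ¬ Disjoint u (nbr G w)).card ≤ s * (d + 1) := by
  have hne : ∀ w ∈ 𝓦.filter (fun w => ¬ Disjoint u (nbr G w)), ∃ x, x ∈ w ∧ x ∈ nbr G u := by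
    intro w hw
    rw [Finset.mem_filter] at hw
    by_contra hcon
    push Not at hcon
    exact hw.2 (Conf_swp G (Finset.disjoint_left.2 fun x hx => hcon x hx))
  have key : (𝓦.filter fun w => ¬ Disjoint u (nbr G w)).card ≤ (nbr G u).card := by
    rcases (𝓦.filter fun w => ¬ Disjoint u (nbr G w)).eq_empty_or_nonempty with h0 | ⟨w0, hw0⟩
    · rw [h0]
      exact Nat.zero_le _
    · obtain ⟨x0, -⟩ := hne w0 hw0
      haveI : Inhabited V := ⟨x0⟩
      choose! f hf using hne
      refine Finset.card_le_card_of_injOn f (fun w hw => (hf w hw).2) ?_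
      intro w hw w' hw' he
      by_contra hww
      have h1 := (hf w hw).1
      have h2 := (hf w' hw').1
      have h3 : Disjoint w' (nbr G w) :=
        h.2 w (Finset.mem_filter.1 (Finset.mem_coe.1 hw)).1 w' (Finset.mem_filter.1 (Finset.mem_coe.1 hw')).1 hww
      rw [← he] at h2
      exact (Finset.disjoint_left.1 h3 h2) (subset_nbr G w h1)
  calc (𝓦.filter fun w => ¬ Disjoint u (nbr G w)).card ≤ (nbr G u).card := key
    _ ≤ (d + 1) * u.card := card_nbr_le G hd u
    _ ≤ (d + 1) * s := Nat.mul_le_mul_left _ hu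
    _ = s * (d + 1) := Nat.mul_comm _ _

end H99.SX
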