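import Pool.Agent.H49.LS.CutL

/-!
# Internal partitions of 6-regular graphs with imbalance at most `C √n` (MP_363a78_co)

`G` is a 6-regular graph with `n` vertices, everything is counted in ordered pairs (`E G S T`, `H97.Int`). `W G A S` (`H49.NB`) is the change of the cut when `S` is flipped.

(1) A FOREST. `par : V → V` with `Par G par` (`ParE`): hubs `z` are the fixed points; all neighbours `u` of a hub `z` have `par u = z`; `par v = v` or `par v` is a neighbour of `v`; `par (par v)` is a hub.
`fo par` is the graph of the edges `v, par v`, a subgraph of `G`.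
(2) LUSTERNIK-SCHNIRELMANN (`LSx`, from `H49/LS/Main`) for `H = q cut G + cut (fo par)`: there are `A`, `U` with imbalance `O(n/S + S)`, `|U| ≤ S / c` and `0 ≤ WW q par A Q = q W G A Q + W (fo par) A Q` for all `Q` with
`|Q| ≤ s`, disjoint from `U`.
(3) `Av`: either an exact internal partition `B` with `|A ∆ B| ≤ M` or a set `P` with `|P| = M`, `W G A P ≤ -2 M`. In the second case `L = P \ U` without its small components has `W G A L ≤ -2|L| + 18|U|` (`Tg`), so
`G[L]` has at most `2|L| + 9|U|` edges. `EnB`, `EnC`: cutting `L` into connected pieces of bounded size, never along an edge of the forest (`Spl0`), shows (`Bd`) that the number `x` of cut forest edges between `L` and `Lᶜ`, the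
number of uncut edges between `L` and `Lᶜ` and the number of cut edges inside `L` are `O(|U| + |L|/s₁)`.
(4) So (`ClA`) at least `|L|/49 - ...` hubs in `L` have all their neighbours in `L`. The local lemma (`Loc..`) says that only `|L|/441 + ...` vertices of `L` have at least `5` neighbours in `L`. Contradiction (`Num`).
-/

set_option autoImplicit false
set_option linter.unusedSectionVars false

namespace H99.SX

open Finset H97.Int H49.NB
open scoped Classical symmDiff

variable {V : Type} [Fintype V] [DecidableEq V] (G : SimpleGraph V) [DecidableRel G.Adj]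

/-- a forest of depth two; the hubs are the fixed points of `par` -/
structure Par (par : V → V) : Prop where
  adj : ∀ v, par v = v ∨ G.Adj v (par v)
  two : ∀ v, par (par (par v)) = par (par v)
  hub : ∀ z, par z = z → ∀ u, G.Adj z u → par u = z

/-- the graph of the forest -/
def fo (par : V → V) : SimpleGraph V where
  Adj u v := u ≠ v ∧ (par u = v ∨ par v = u)
  symm := ⟨fun _ _ h => ⟨h.1.symm, h.2.symm⟩⟩
  loopless := ⟨fun _ h => h.1 rfl⟩

instance (par : V → V) : DecidableRel (fo par).Adj :=
  fun u v => inferInstanceAs (Decidable (u ≠ v ∧ (par u = v ∨ par v = u)))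

/-- the weighted cut -/
noncomputable def HH (q : ℕ) (par : V → V) (A : Finset V) : ℕ :=
  q * H49.LS.cutn G A + H49.LS.cutn (fo par) A

/-- the change of the weighted cut when `S` is flipped -/
noncomputable def WW (q : ℕ) (par : V → V) (A S : Finset V) : ℤ := q * W G A S + W (fo par) A S

/-- ordered adjacent pairs in `S × T` on the same side of `A` -/
def Es (A S T : Finset V) : ℤ := ∑ u ∈ S, ∑ v ∈ T, if (u ∈ A ↔ v ∈ A) then adj G u v else 0

/-- ordered adjacent pairs in `S × T` on different sides of `A` -/
def Ed (A S T : Finset V) : ℤ := ∑ u ∈ S, ∑ v ∈ T, if (u ∈ A ↔ v ∈ A) then 0 else adj G u v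

/-- the last vertex of `v, par v, par (par v)` which is reached inside `C` -/
noncomputable def rt (par : V → V) (C : Finset V) (v : V) : V :=
  if par v ∉ C then v else if par (par v) ∉ C then par v else par (par v)

/-- the quotient of `G` on `C` by the map `f` -/
def quo (f : V → V) (C : Finset V) : SimpleGraph V where
  Adj a b := a ≠ b ∧ ∃ u ∈ C, ∃ v ∈ C, f u = a ∧ f v = b ∧ G.Adj u v
  symm := ⟨fun _ _ h => ⟨h.1.symm, by
    obtain ⟨u, hu, v, hv, h1, h2, h3⟩ := h.2
    exact ⟨v, hv, u, hu, h2, h1, h3.symm⟩⟩⟩
  loopless := ⟨fun _ h => h.1 rfl⟩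

noncomputable instance (f : V → V) (C : Finset V) : DecidableRel (quo G f C).Adj :=
  fun _ _ => Classical.propDecidable _

/-- the energy inequality for `L` (the cost of cutting `L` into pieces) -/
def Eng (q s₁ : ℕ) (par : V → V) (A L : Finset V) : Prop :=
  -((q : ℤ) * (s₁ * (E G L L - 2 * L.card) + 2 * L.card)) ≤
    s₁ * (WW G q par A L - q * Ed G A L L)

/-- the vertices of `L` with a cut edge inside `L` or an uncut edge leaving `L` -/
noncomputable def bad (A L : Finset V) : Finset V :=
  L.filter fun v => Ed G A {v} L ≠ 0 ∨ Es G A {v} Lᶜ ≠ 0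

/-- the vertices of `L \ B` with at least five neighbours in `L` -/
noncomputable def Pp (L B : Finset V) : Finset V := (L \ B).filter fun v => 5 ≤ nin G v L

/-- the vertices of `L \ B` with at most four neighbours in `L` -/
noncomputable def Lo (L B : Finset V) : Finset V := (L \ B).filter fun v => nin G v L ≤ 4

/-- the vertices of `L \ B` with exactly three neighbours in `L` -/
noncomputable def Mi (L B : Finset V) : Finset V := (L \ B).filter fun v => nin G v L = 3

/-- the hypothesis of the local lemma -/
def Hyp (S₂ : ℕ) (L B : Finset V) : Prop :=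
  ∀ Q : Finset V, Q ⊆ L \ B → Q.card ≤ S₂ → 6 * (Q.card : ℤ) + E G Q Q ≤ 2 * E G Q L

end H99.SX
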