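import Pool.Agent.H99.SX.Spl0
import Pool.Agent.H99.SX.Bas

/-!
# The energy of a connected set

Strong induction on `|C|`. If `|C| ≤ s`: `q Ed C C ≤ WW C` (`base`), `E G C C ≥ 2 (|C| - 1)` (`cn_edges`, `C` nonempty as `1 ≤ s₁ ≤ |C|`), so the left side of `Eng` is at most `- q (s₁ (-2) + 2 |C|) ≤ 0`.
If `|C| > s ≥ 49 * (294 * s₁)`: `split0` with `t = s₁`: `X`, `Y` satisfy `Eng` by induction (both are smaller than `C`: the other one is nonempty). `W_cup` for `G`; for `fo par`: `W_union_eq` (no edges of `fo par` between them); `Ed_cup`, `E_cup`: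
`WW C - q Ed C C = (WW X - q Ed X X) + (WW Y - q Ed Y Y) - 2 q E X Y + 2 q Ed X Y`, `Ed X Y ≥ 0`, and the left side of `Eng` for `C` is the sum of those of `X`, `Y` minus `2 q s₁ E X Y`.
-/

set_option autoImplicit false
set_option linter.unusedSectionVars false

namespace H99.SX

open Finset H97.Int H49.NB
open scoped Classical symmDiff

variable {V : Type} [Fintype V] [DecidableEq V] (G : SimpleGraph V) [DecidableRel G.Adj]

theorem eng_cn {par : V → V} (hp : Par G par) (hd : ∀ v, G.degree v ≤ 6) {q s s₁ : ℕ} {A U : Finset V}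
    (hA : ∀ Q : Finset V, Q.card ≤ s → Disjoint Q U → 0 ≤ WW G q par A Q) (h1 : 1 ≤ s₁)
    (hs : 49 * (294 * s₁) ≤ s) {C : Finset V} (hC : Cn G C) (hCU : Disjoint C U)
    (hc : s₁ ≤ C.card) : Eng G q s₁ par A C := by
  induction' hn : C.card using Nat.strong_induction_on with n ih generalizing C
  by_cases hle : C.card ≤ s
  · have hb := base G par hA hle hCU
    have he := cn_edges G hC (card_pos.mp (by omega))
    unfold Eng
    have h2 : 0 ≤ (s₁ : ℤ) * (WW G q par A C - q * Ed G A C C) :=
      mul_nonneg (Int.natCast_nonneg _) (by linarith)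
    have h3 : 0 ≤ (s₁ : ℤ) * (E G C C - 2 * C.card) + 2 * C.card := by
      have h5 : (s₁ : ℤ) ≤ C.card := by exact_mod_cast hc
      have h6 : (0 : ℤ) ≤ s₁ := Int.natCast_nonneg _
      nlinarith
    have h4 := mul_nonneg (Int.natCast_nonneg q) h3
    linarith
  · push Not at hle
    obtain ⟨X, Y, hXY, hdis, hX, hY, hXc, hYc, hfo⟩ := split0 G hp hd h1 hC (by omega)
    have hcard : X.card + Y.card = C.card := by
      rw [← hXY, Finset.card_union_of_disjoint hdis]
    have hXU : Disjoint X U := Disjoint.mono_left (by rw [← hXY]; exact subset_union_left) hCU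
    have hYU : Disjoint Y U := Disjoint.mono_left (by rw [← hXY]; exact subset_union_right) hCU
    have eX := ih X.card (by omega) hX hXU hXc rfl
    have eY := ih Y.card (by omega) hY hYU hYc rfl
    have hE := Ed_nonneg G A X Y
    have h7 := mul_nonneg (mul_nonneg (Int.natCast_nonneg s₁) (Int.natCast_nonneg q)) hE
    unfold Eng WW at *
    rw [← hXY, W_cup G A hdis, W_union_eq (fo par) A hdis hfo, Ed_cup G A hdis, E_cup G hdis,
      Finset.card_union_of_disjoint hdis]
    push_cast
    linarith

end H99.SX
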