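import Pool.Agent.H99.SX.Fo
import Pool.Agent.H99.SX.Sd

/-!
# The true cut from the weighted cut

`W_le`: `W_sd`, `W ≤ Es S Sᶜ ≤ E S Sᶜ ≤ E S univ = ∑ degree` (`E_univ_right`). `W_nn`: `fo_deg`, `W_le` for `fo par`: `W (fo par) A Q ≤ 6 |Q|`; if `W G A Q ≤ -1` then `WW ≤ - q + 6 |Q| < 0`. `W_lo`: if `W G A Q ≤ - |Q| - 1` then
`WW ≤ - q (|Q| + 1) + 6 |Q| < 0`.
-/

set_option autoImplicit false
set_option linter.unusedSectionVars false

namespace H99.SX

open Finset H97.Int H49.NB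
open scoped Classical symmDiff

variable {V : Type} [Fintype V] [DecidableEq V] (G : SimpleGraph V) [DecidableRel G.Adj]

lemma W_le {d : ℕ} (hd : ∀ v, G.degree v ≤ d) (A S : Finset V) : W G A S ≤ (d : ℤ) * S.card := by
  have h1 := W_sd G A S
  have h2 := Ed_nonneg G A S Sᶜ
  have h3 := E_eq_sd G A S Sᶜ
  have h4 : E G S Sᶜ ≤ E G S univ := E_mono_right G (Finset.subset_univ _) S
  have h5 : E G S univ ≤ (d : ℤ) * S.card := by
    rw [E_eq_sum_nin]
    calc ∑ v ∈ S, nin G v univ ≤ ∑ _v ∈ S, (d : ℤ) := Finset.sum_le_sum fun v _ => by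
          rw [nin_univ]
          exact_mod_cast hd v
      _ = (d : ℤ) * S.card := by rw [Finset.sum_const, nsmul_eq_mul, mul_comm]
  linarith

lemma W_nn {par : V → V} (hp : Par G par) (hd : ∀ v, G.degree v ≤ 6) {q : ℕ} {A Q : Finset V}
    (hq : 6 * Q.card + 1 ≤ q) (h : 0 ≤ WW G q par A Q) : 0 ≤ W G A Q := by
  by_contra hneg
  have h1 : W G A Q ≤ -1 := by omega
  have h2 : W (fo par) A Q ≤ ((6 : ℕ) : ℤ) * Q.card := W_le (fo par) (fo_deg G hp hd) A Q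
  have h3 : (6 : ℤ) * Q.card + 1 ≤ q := by exact_mod_cast hq
  have h4 : (q : ℤ) * W G A Q ≤ -q := by nlinarith
  unfold WW at h
  push_cast at h2
  linarith

lemma W_lo {par : V → V} (hp : Par G par) (hd : ∀ v, G.degree v ≤ 6) {q : ℕ} {A Q : Finset V}
    (hq : 6 ≤ q) (h : 0 ≤ WW G q par A Q) : -(Q.card : ℤ) ≤ W G A Q := by
  by_contra hneg
  have h1 : W G A Q ≤ -(Q.card : ℤ) - 1 := by omega
  have h2 : W (fo par) A Q ≤ ((6 : ℕ) : ℤ) * Q.card := W_le (fo par) (fo_deg G hp hd) A Q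
  have h3 : (6 : ℤ) ≤ q := by exact_mod_cast hq
  have hQ0 : (0 : ℤ) ≤ Q.card := by positivity
  have h4 : (q : ℤ) * W G A Q ≤ q * (-(Q.card : ℤ) - 1) := by nlinarith
  unfold WW at h
  push_cast at h2
  nlinarith

end H99.SX
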