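import Pool.Agent.H99.SX.EnB
import Pool.Agent.H99.SX.Wq

/-!
# The energy of a set without its small components

Strong induction on `|Z|`. `Z = ∅`: `L = ∅` (all terms are `0`). Otherwise `exists_comp`: `C ⊆ Z` nonempty, connected, without edges to `Z' = Z \ C`; `L' ⊆ Z'` by induction. `W G A Z = W G A C + W G A Z'` (`W_union_eq`).
If `|C| < s₁` (`≤ s`): `L = L'`; `W G A C ≥ - |C|` (`W_lo`), `|Z \ L| = |C| + |Z' \ L'|`. If `|C| ≥ s₁`: `L = C ∪ L'`; there are no edges between `C` and `L'`: `W_union_eq` for `G` and `fo par` (`fo_le`), `E G C L' = 0`, `Ed G A C L' = 0`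
(`≤ E`), `E_cup`, `Ed_cup`, `eng_cn`; `Eng` is additive; `Z \ L = Z' \ L'`.
-/

set_option autoImplicit false
set_option linter.unusedSectionVars false

namespace H99.SX

open Finset H97.Int H49.NB
open scoped Classical symmDiff

variable {V : Type} [Fintype V] [DecidableEq V] (G : SimpleGraph V) [DecidableRel G.Adj]

theorem eng_set {par : V → V} (hp : Par G par) (hd : ∀ v, G.degree v ≤ 6) {q s s₁ : ℕ} {A U : Finset V}
    (hA : ∀ Q : Finset V, Q.card ≤ s → Disjoint Q U → 0 ≤ WW G q par A Q) (h1 : 1 ≤ s₁)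
    (hs : 49 * (294 * s₁) ≤ s) (hq : 6 ≤ q) (Z : Finset V) (hZ : Disjoint Z U) :
    ∃ L ⊆ Z, W G A L - ((Z \ L).card : ℤ) ≤ W G A Z ∧ Eng G q s₁ par A L := by
  induction hn : Z.card using Nat.strong_induction_on generalizing Z with
  | _ n ih =>
  rcases Z.eq_empty_or_nonempty with rfl | hne
  · refine ⟨∅, empty_subset _, ?_, ?_⟩
    · simp
    · unfold Eng WW
      rw [W_empty, W_empty, E_empty_left]
      have h0 : Ed G A ∅ ∅ = 0 := by
        unfold Ed
        exact sum_empty
      rw [h0]
      simp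
  obtain ⟨C, hCZ, hC0, hCn, hCe⟩ := exists_comp G hne
  have hdis : Disjoint C (Z \ C) := disjoint_sdiff
  have hun : C ∪ (Z \ C) = Z := union_sdiff_of_subset hCZ
  have hCU : Disjoint C U := disjoint_of_subset_left hCZ hZ
  have hsum : C.card + (Z \ C).card = Z.card := by
    rw [← card_union_of_disjoint hdis, hun]
  have hCpos : 0 < C.card := hC0.card_pos
  obtain ⟨L', hL', hW', hE'⟩ := ih (Z \ C).card (by omega) (Z \ C)
    (disjoint_of_subset_left sdiff_subset hZ) rfl
  have hWZ : W G A Z = W G A C + W G A (Z \ C) := by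
    have h := W_union_eq G A hdis hCe
    rw [hun] at h
    exact h
  have hdL : Disjoint C L' := disjoint_of_subset_right hL' hdis
  by_cases hc : C.card < s₁
  · refine ⟨L', hL'.trans sdiff_subset, ?_, hE'⟩
    have hWC := W_lo G hp hd hq (hA C (by omega) hCU)
    have hcard : (Z \ L').card = C.card + ((Z \ C) \ L').card := by
      rw [← card_union_of_disjoint (disjoint_of_subset_right sdiff_subset hdis)]
      congr 1
      ext x
      simp only [mem_sdiff, mem_union]
      constructor
      · rintro ⟨hx, hx'⟩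
        by_cases hxC : x ∈ C
        · exact Or.inl hxC
        · exact Or.inr ⟨⟨hx, hxC⟩, hx'⟩
      · rintro (hx | ⟨⟨hx, _⟩, hx'⟩)
        · exact ⟨hCZ hx, fun h => (disjoint_left.1 hdL) hx h⟩
        · exact ⟨hx, hx'⟩
    rw [hcard, hWZ]
    push_cast
    linarith
  · push Not at hc
    have hEC := eng_cn G hp hd hA h1 hs hCn hCU hc
    have he : ∀ u ∈ C, ∀ v ∈ L', ¬ G.Adj u v := fun u hu v hv => hCe u hu v (hL' hv)
    have hef : ∀ u ∈ C, ∀ v ∈ L', ¬ (fo par).Adj u v := fun u hu v hv h =>
      he u hu v hv (fo_le G hp h)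
    have hW1 := W_union_eq G A hdL he
    have hW2 := W_union_eq (fo par) A hdL hef
    have hE0 : E G C L' = 0 := by
      unfold E
      refine sum_eq_zero fun u hu => sum_eq_zero fun v hv => ?_
      unfold adj
      rw [if_neg (he u hu v hv)]
    have hEd0 : Ed G A C L' = 0 := by
      have a1 := E_eq_sd G A C L'
      have a2 := Es_nonneg G A C L'
      have a3 := Ed_nonneg G A C L'
      linarith
    refine ⟨C ∪ L', union_subset hCZ (hL'.trans sdiff_subset), ?_, ?_⟩
    · have hset : Z \ (C ∪ L') = (Z \ C) \ L' := by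
        ext x
        simp only [mem_sdiff, mem_union, not_or]
        tauto
      rw [hset, hW1, hWZ]
      linarith
    · unfold Eng WW at *
      rw [E_cup G hdL, Ed_cup G A hdL, hE0, hEd0, hW1, hW2, card_union_of_disjoint hdL]
      push_cast
      linarith

end H99.SX
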