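import Pool.Agent.H99.SX.LSa

/-!
# Few defects for the weighted cut, with a free scale `S`

As `H49.LS.fewS` (file `H49/LS/FewS.lean`) with `r = 1` and `few6a` in place of `fewD`: `C₁ = (7 s)^2`, `S₁ = ⌈c C₁⌉₊ + 1`, `K = S / S₁`, `C = 12 S₁ s (q + 1) + 2 s + S₁ + 1`. If `K = 0`: `S < S₁`, `n ≤ S₁ (n / S) ≤ C (n/S + S)`.
If `K ≥ 1`, `n ≤ s K`: `n ≤ s S`. Otherwise `few6a`: `c |U| ≤ c C₁ K < S₁ K ≤ S`; `K |th| ≤ 2 s (q + 1) e + s K^2`, `2 e ≤ 6 n`, so `|th| ≤ 6 s (q + 1) n / K + s K` and `S ≤ 2 S₁ K`, so `n / K ≤ 2 S₁ n / S`; `K ≤ S`.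
-/

set_option autoImplicit false
set_option linter.unusedSectionVars false

namespace H99.SX

open Finset H97.Int H49.NB
open scoped Classical symmDiff

theorem few6 (q s : ℕ) (hs : 1 ≤ s) (c : ℝ) (hc : 0 < c) :
    ∃ C : ℝ, 0 < C ∧ ∀ S : ℕ, 1 ≤ S → ∀ (V : Type) [Fintype V] [DecidableEq V] (G : SimpleGraph V)
      [DecidableRel G.Adj] (par : V → V), (∀ v, G.degree v ≤ 6) → Par G par →
      (Fintype.card V : ℝ) ≤ C * (Fintype.card V / S + S) ∨
      ∃ A U : Finset V, c * U.card < S ∧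
        |(H49.LS.th univ A : ℝ)| ≤ C * (Fintype.card V / S + S) ∧
        ∀ Q : Finset V, Q.card ≤ s → Disjoint Q U → 0 ≤ WW G q par A Q := by
  obtain ⟨S₁, hS₁pos, hS₁⟩ : ∃ S₁ : ℕ, 1 ≤ S₁ ∧ c * (((7 * s) ^ 2 : ℕ) : ℝ) < S₁ := by
    refine ⟨⌈c * (((7 * s) ^ 2 : ℕ) : ℝ)⌉₊ + 1, Nat.le_add_left 1 _, ?_⟩
    have h1 := Nat.le_ceil (c * (((7 * s) ^ 2 : ℕ) : ℝ))
    push_cast at h1 ⊢
    linarith
  have hS₁R : (1 : ℝ) ≤ S₁ := by exact_mod_cast hS₁pos
  have hsR : (0 : ℝ) ≤ s := Nat.cast_nonneg s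
  have hqR : (0 : ℝ) ≤ q := Nat.cast_nonneg q
  have t1 : (0 : ℝ) ≤ 12 * S₁ * s * (q + 1) := by positivity
  refine ⟨12 * S₁ * s * (q + 1) + 2 * s + S₁ + 1, by linarith, ?_⟩
  intro S hS V _ _ G _ par hdeg hp
  have hSR : (1 : ℝ) ≤ S := by exact_mod_cast hS
  have hSpos : (0 : ℝ) < S := by linarith
  obtain ⟨X, hX0, hXS⟩ : ∃ X : ℝ, 0 ≤ X ∧ (Fintype.card V : ℝ) = X * S ∧ (Fintype.card V : ℝ) / S = X :=
    ⟨(Fintype.card V : ℝ) / S, by positivity, by field_simp, rfl⟩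
  rw [hXS.2]
  have hXn := hXS.1
  set C : ℝ := 12 * S₁ * s * (q + 1) + 2 * s + S₁ + 1 with hC
  have hXS0 : 0 ≤ X + S := by linarith
  -- the natural quotient
  obtain ⟨K, hK⟩ : ∃ K : ℕ, K = S / S₁ := ⟨_, rfl⟩
  have hKS : K ≤ S := hK ▸ Nat.div_le_self S S₁
  have hKS1 : S₁ * K ≤ S := hK ▸ Nat.mul_div_le S S₁
  have hSlt : S < S₁ * (K + 1) := by
    have h1 := Nat.lt_mul_div_succ S (Nat.pos_of_ne_zero (by omega) : 0 < S₁)
    rw [← hK] at h1
    exact h1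
  have hKSR : (K : ℝ) ≤ S := by exact_mod_cast hKS
  by_cases hK0 : K = 0
  · left
    rw [hK0] at hSlt
    have h1 : (S : ℝ) ≤ S₁ := by
      have : S ≤ S₁ := by omega
      exact_mod_cast this
    have h2 : X * S ≤ X * S₁ := mul_le_mul_of_nonneg_left h1 hX0
    have h3 : (S₁ : ℝ) * (X + S) ≤ C * (X + S) := by
      refine mul_le_mul_of_nonneg_right ?_ hXS0
      rw [hC]
      linarith
    have h4 : (0 : ℝ) ≤ S₁ * S := by positivity
    rw [hXn]
    nlinarith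
  have hK1 : 1 ≤ K := Nat.one_le_iff_ne_zero.2 hK0
  have hK1R : (1 : ℝ) ≤ K := by exact_mod_cast hK1
  have hKpos : (0 : ℝ) < K := by linarith
  by_cases hn : Fintype.card V ≤ s * K
  · left
    have h1 : (Fintype.card V : ℝ) ≤ s * K := by exact_mod_cast hn
    have h2 : (s : ℝ) * K ≤ s * S := mul_le_mul_of_nonneg_left hKSR hsR
    have h3 : (s : ℝ) * (X + S) ≤ C * (X + S) := by
      refine mul_le_mul_of_nonneg_right ?_ hXS0
      rw [hC]
      linarith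
    have h4 : (0 : ℝ) ≤ s * X := by positivity
    nlinarith
  right
  push Not at hn
  obtain ⟨A, U, hU, hth, hcut⟩ := few6a G (q := q) hdeg hp hs hK1 hn
  refine ⟨A, U, ?_, ?_, hcut⟩
  · have h1 : (U.card : ℝ) ≤ (((7 * s) ^ 2 : ℕ) : ℝ) * K := by exact_mod_cast hU
    calc c * U.card ≤ c * ((((7 * s) ^ 2 : ℕ) : ℝ) * K) := mul_le_mul_of_nonneg_left h1 hc.le
      _ = (c * (((7 * s) ^ 2 : ℕ) : ℝ)) * K := by ring
      _ < S₁ * K := mul_lt_mul_of_pos_right hS₁ hKpos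
      _ ≤ S := by exact_mod_cast hKS1
  · have h1 : (K : ℝ) * |(H49.LS.th univ A : ℝ)| ≤
        2 * s * ((q + 1) * G.edgeFinset.card) + s * K ^ 2 := by
      have h2 : ((K * |H49.LS.th univ A| : ℤ) : ℝ) ≤
          (((2 * s * ((q + 1) * G.edgeFinset.card) + s * K ^ 2 : ℕ) : ℤ) : ℝ) := Int.cast_le.2 hth
      push_cast at h2
      exact h2
    have he : 2 * (G.edgeFinset.card : ℝ) ≤ 6 * Fintype.card V := by
      have h2 := G.sum_degrees_eq_twice_card_edges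
      have h3 : ∑ v, G.degree v ≤ ∑ _v : V, 6 := Finset.sum_le_sum fun v _ => hdeg v
      rw [h2, Finset.sum_const, Finset.card_univ, smul_eq_mul, mul_comm (Fintype.card V)] at h3
      exact_mod_cast h3
    have hS2 : (S : ℝ) ≤ 2 * S₁ * K := by
      have h2 : S ≤ 2 * S₁ * K := by nlinarith
      exact_mod_cast h2
    have hn2 : (Fintype.card V : ℝ) ≤ X * (2 * S₁ * K) := by
      rw [hXn]
      exact mul_le_mul_of_nonneg_left hS2 hX0
    have h5 : (K : ℝ) * |(H49.LS.th univ A : ℝ)| ≤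
        K * (12 * S₁ * s * (q + 1) * X + s * S) := by
      have e1 : 2 * (s : ℝ) * ((q + 1) * G.edgeFinset.card) ≤
          (s * (q + 1)) * (6 * (X * (2 * S₁ * K))) := by
        have hsq : (0 : ℝ) ≤ s * (q + 1) := by positivity
        have e2 : ((s : ℝ) * (q + 1)) * (2 * (G.edgeFinset.card : ℝ)) ≤
            (s * (q + 1)) * (6 * Fintype.card V) := mul_le_mul_of_nonneg_left he hsq
        have e3 : ((s : ℝ) * (q + 1)) * (6 * Fintype.card V) ≤
            (s * (q + 1)) * (6 * (X * (2 * S₁ * K))) :=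
          mul_le_mul_of_nonneg_left (by linarith) hsq
        linarith
      have e4 : (s : ℝ) * K ^ 2 ≤ K * (s * S) := by
        have e5 : (s : ℝ) * K * K ≤ s * K * S :=
          mul_le_mul_of_nonneg_left hKSR (by positivity)
        nlinarith
      nlinarith
    have h6 := le_of_mul_le_mul_left h5 hKpos
    refine le_trans h6 ?_
    have h7 : (0 : ℝ) ≤ 12 * S₁ * s * (q + 1) * S := by positivity
    have h8 : (0 : ℝ) ≤ s * X := by positivity
    have h9 : (0 : ℝ) ≤ (S₁ + 1) * (X + S) := by positivity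
    have h10 : (0 : ℝ) ≤ s * S := by positivity
    rw [hC]
    nlinarith

end H99.SX
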