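import Pool.Agent.H99.SX.ParE
import Pool.Agent.H99.SX.LSx
import Pool.Agent.H99.SX.Com

/-!
# 6-regular graphs

`q, s, c` from `complete6`, `C₀` from `few6 q s` with this `c`, `par` from `exists_par`. `six_S`: if `n ≤ C₀ (n/S + S)`: `B = ∅` (`W G ∅ {v} ≥ 0`, `|th univ ∅| = n`: `triv` in `H49/LS/ExB` with `r = 1`, `W = fun _ => univ`). Otherwise `A, U`, `c |U| < S`,
`complete6` with `M = S`: `B`, `|th univ B| ≤ |th univ A| + 2 |A ∆ B|` (`th_change`, `r = 1`), `C = C₀ + 2`.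
`six`: `n = 0`: `B = ∅`. Otherwise `S = ⌈√n⌉₊` (or `Nat.sqrt n + 1`): `√n ≤ S ≤ √n + 1 ≤ 2 √n`, `n / S ≤ √n`: `C' = 3 C`.
-/

set_option autoImplicit false
set_option linter.unusedSectionVars false

namespace H99.SX

open Finset H97.Int H49.NB
open scoped Classical symmDiff

private lemma Fin_triv {V : Type} [Fintype V] [DecidableEq V] (G : SimpleGraph V) [DecidableRel G.Adj] :
    (∀ v, 0 ≤ W G ∅ {v}) ∧ |(H49.LS.th univ (∅ : Finset V) : ℝ)| ≤ Fintype.card V := by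
  have h := H49.LS.triv G (r := 1) (W := fun _ => (univ : Finset V)) (by
    intro i hi j hj hij
    omega)
  refine ⟨h.1, ?_⟩
  have h2 := h.2
  rw [Finset.sum_range_one] at h2
  exact h2

private lemma Fin_change {V : Type} [Fintype V] [DecidableEq V] (A B : Finset V) :
    |(H49.LS.th univ B : ℝ)| ≤ |(H49.LS.th univ A : ℝ)| + 2 * (A ∆ B).card := by
  have h := H49.LS.th_change (r := 1) (W := fun _ => (univ : Finset V)) (by
    intro i hi j hj hij
    omega) A B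
  rw [Finset.sum_range_one, Finset.sum_range_one] at h
  exact h

theorem six_S : ∃ C : ℝ, 0 < C ∧ ∀ S : ℕ, 1 ≤ S → ∀ (V : Type) [Fintype V] [DecidableEq V]
    (G : SimpleGraph V) [DecidableRel G.Adj], (∀ v, G.degree v = 6) →
    ∃ B : Finset V, (∀ v, 0 ≤ W G B {v}) ∧
      |(H49.LS.th univ B : ℝ)| ≤ C * (Fintype.card V / S + S) := by
  obtain ⟨q, s, c, hs, hc, hcom⟩ := complete6
  have hc0 : (0 : ℝ) < (c : ℝ) := by exact_mod_cast hc
  obtain ⟨C₀, hC0, hfew⟩ := few6 q s hs (c : ℝ) hc0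
  refine ⟨C₀ + 2, by positivity, fun S hS V _ _ G _ hdeg => ?_⟩
  have hn0 : (0 : ℝ) ≤ Fintype.card V / S := by positivity
  have hS0 : (0 : ℝ) ≤ S := Nat.cast_nonneg _
  obtain ⟨par, hpar⟩ := exists_par G
  rcases hfew S hS V G par (fun v => (hdeg v).le) hpar with h | ⟨A, U, h1, h2, h3⟩
  · refine ⟨∅, (Fin_triv G).1, ?_⟩
    have h4 := (Fin_triv G).2
    have h5 : C₀ * ((Fintype.card V : ℝ) / S + S) ≤ (C₀ + 2) * ((Fintype.card V : ℝ) / S + S) :=
      mul_le_mul_of_nonneg_right (by linarith) (by linarith)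
    linarith
  · have hc' : c * U.card < S := by exact_mod_cast h1
    obtain ⟨B, hB1, hB2⟩ := hcom V G par hdeg hpar A U h3 S hc'
    refine ⟨B, hB2, ?_⟩
    have h4 := Fin_change A B
    have h5 : (((A ∆ B).card : ℕ) : ℝ) ≤ (S : ℝ) := by exact_mod_cast hB1
    nlinarith

theorem six : ∃ C : ℝ, 0 < C ∧ ∀ (V : Type) [Fintype V] [DecidableEq V]
    (G : SimpleGraph V) [DecidableRel G.Adj], (∀ v, G.degree v = 6) →
    ∃ B : Finset V, (∀ v, 0 ≤ W G B {v}) ∧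
      |(H49.LS.th univ B : ℝ)| ≤ C * Real.sqrt (Fintype.card V) := by
  obtain ⟨C, hC, h⟩ := six_S
  refine ⟨3 * C, by positivity, fun V _ _ G _ hdeg => ?_⟩
  rcases Nat.eq_zero_or_pos (Fintype.card V) with h0 | hpos
  · refine ⟨∅, (Fin_triv G).1, ?_⟩
    have h4 := (Fin_triv G).2
    rw [h0] at h4 ⊢
    simpa using h4
  · obtain ⟨B, hB1, hB2⟩ := h (Nat.sqrt (Fintype.card V) + 1) (by omega) V G hdeg
    refine ⟨B, hB1, hB2.trans ?_⟩
    set n : ℕ := Fintype.card V with hn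
    have hx1 : (1 : ℝ) ≤ Real.sqrt n := by
      rw [Real.one_le_sqrt]
      exact_mod_cast hpos
    have hx0 : 0 ≤ Real.sqrt n := Real.sqrt_nonneg _
    have hxx : Real.sqrt n * Real.sqrt n = n := Real.mul_self_sqrt (Nat.cast_nonneg _)
    have hlow : Real.sqrt n ≤ ((Nat.sqrt n + 1 : ℕ) : ℝ) := by
      rw [Real.sqrt_le_left (Nat.cast_nonneg _)]
      have := Nat.lt_succ_sqrt' n
      have h2 : n ≤ (Nat.sqrt n + 1) ^ 2 := by
        have : n < (Nat.sqrt n + 1) ^ 2 := this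
        omega
      exact_mod_cast h2
    have hup : ((Nat.sqrt n + 1 : ℕ) : ℝ) ≤ Real.sqrt n + 1 := by
      push_cast
      have := Real.nat_sqrt_le_real_sqrt (a := n)
      linarith
    have hSpos : (0 : ℝ) < ((Nat.sqrt n + 1 : ℕ) : ℝ) := by positivity
    have hdiv : (n : ℝ) / ((Nat.sqrt n + 1 : ℕ) : ℝ) ≤ Real.sqrt n := by
      rw [div_le_iff₀ hSpos]
      nlinarith
    have : (n : ℝ) / ((Nat.sqrt n + 1 : ℕ) : ℝ) + ((Nat.sqrt n + 1 : ℕ) : ℝ) ≤ 3 * Real.sqrt n := by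
      linarith
    calc C * ((n : ℝ) / ((Nat.sqrt n + 1 : ℕ) : ℝ) + ((Nat.sqrt n + 1 : ℕ) : ℝ))
        ≤ C * (3 * Real.sqrt n) := mul_le_mul_of_nonneg_left this hC.le
      _ = 3 * C * Real.sqrt n := by ring

end H99.SX
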