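import Pool.Agent.H99.SX.Defs

/-!
# The forest is a subgraph

`fo_le`: `par.adj` (if `par u = v ≠ u` then `Adj u v`). `fo_adj_le`, `fo_E`: `adj (fo par) u v ≤ adj G u v`, sums. `fo_deg`: `neighborFinset` of `fo par` is contained in the one of `G` (`card_le_card`; `degree = nin _ univ` also gives
it, `nin_univ`, `fo_E`). `fo_nbr`: `mem_nbr`. `fo_cutn`: `cutn_cast`, `cut = E A Aᶜ`, `fo_E`.
-/

set_option autoImplicit false
set_option linter.unusedSectionVars false

namespace H99.SX

open Finset H97.Int H49.NB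
open scoped Classical symmDiff

variable {V : Type} [Fintype V] [DecidableEq V] (G : SimpleGraph V) [DecidableRel G.Adj]

lemma fo_le {par : V → V} (h : Par G par) {u v : V} (ha : (fo par).Adj u v) : G.Adj u v := by
  obtain ⟨hne, h1 | h1⟩ := ha
  · rcases h.adj u with h2 | h2
    · exact absurd (h2.symm.trans h1) hne
    · rw [h1] at h2
      exact h2
  · rcases h.adj v with h2 | h2
    · exact absurd (h1.symm.trans h2) hne
    · rw [h1] at h2
      exact h2.symm

private lemma fo_adj_le {par : V → V} (h : Par G par) (u v : V) : adj (fo par) u v ≤ adj G u v := by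
  unfold adj
  by_cases h1 : (fo par).Adj u v
  · rw [if_pos h1, if_pos (fo_le G h h1)]
  · rw [if_neg h1]
    split_ifs
    · exact zero_le_one
    · exact le_rfl

lemma fo_E {par : V → V} (h : Par G par) (S T : Finset V) : E (fo par) S T ≤ E G S T :=
  Finset.sum_le_sum fun u _ => Finset.sum_le_sum fun v _ => fo_adj_le G h u v

lemma fo_deg {par : V → V} (h : Par G par) {d : ℕ} (hd : ∀ v, G.degree v ≤ d) (v : V) :
    (fo par).degree v ≤ d := by
  have h1 := fo_E G h {v} univ
  have h2 : nin (fo par) v univ ≤ nin G v univ := h1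
  rw [nin_univ, nin_univ] at h2
  have h3 := hd v
  have h4 : (fo par).degree v ≤ G.degree v := by exact_mod_cast h2
  exact h4.trans h3

lemma fo_nbr {par : V → V} (h : Par G par) (S : Finset V) : nbr (fo par) S ⊆ nbr G S := by
  intro x hx
  rcases (mem_nbr (fo par)).1 hx with h1 | ⟨u, hu, hux⟩
  · exact (mem_nbr G).2 (Or.inl h1)
  · exact (mem_nbr G).2 (Or.inr ⟨u, hu, fo_le G h hux⟩)

lemma fo_cutn {par : V → V} (h : Par G par) (A : Finset V) :
    H49.LS.cutn (fo par) A ≤ H49.LS.cutn G A :=
  Int.toNat_le_toNat (fo_E G h A Aᶜ)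

end H99.SX
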