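import Pool.Agent.H99.SX.Fo

/-!
# The weighted cut is local

`hh_loc`: `sym`: from `loc_cut G`, `loc_cut (fo par)` (`.sym`). `sub`, `swp` from `loc_cut G`. `loc`: both cut functions satisfy the identity (for `fo par`: `X` is disjoint from `nbr (fo par) D ⊆ nbr G D`, `fo_nbr`); `q` times the
first plus the second. `hh_le`: `fo_cutn`, `cutn_le`. `hh_flip`: `cutn_cast`, `cut_flip_set` for both graphs.
-/

set_option autoImplicit false
set_option linter.unusedSectionVars false

namespace H99.SX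

open Finset H97.Int H49.NB
open scoped Classical symmDiff

variable {V : Type} [Fintype V] [DecidableEq V] (G : SimpleGraph V) [DecidableRel G.Adj]

lemma hh_loc {par : V → V} (h : Par G par) (q : ℕ) : H49.LS.Loc (nbr G) (HH G q par) := by
  have l1 := H49.LS.loc_cut G
  have l2 := H49.LS.loc_cut (fo par)
  refine ⟨fun A => ?_, l1.sub, l1.swp, fun A D X hX => ?_⟩
  · unfold HH
    rw [l1.sym A, l2.sym A]
  · have h1 := l1.loc A D X hX
    have h2 := l2.loc A D X (Finset.disjoint_of_subset_right (fo_nbr G h D) hX)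
    unfold HH
    calc q * H49.LS.cutn G ((A ∆ X) ∆ D) + H49.LS.cutn (fo par) ((A ∆ X) ∆ D)
          + (q * H49.LS.cutn G A + H49.LS.cutn (fo par) A)
        = q * (H49.LS.cutn G ((A ∆ X) ∆ D) + H49.LS.cutn G A)
          + (H49.LS.cutn (fo par) ((A ∆ X) ∆ D) + H49.LS.cutn (fo par) A) := by ring
      _ = q * (H49.LS.cutn G (A ∆ X) + H49.LS.cutn G (A ∆ D))
          + (H49.LS.cutn (fo par) (A ∆ X) + H49.LS.cutn (fo par) (A ∆ D)) := by rw [h1, h2]
      _ = q * H49.LS.cutn G (A ∆ X) + H49.LS.cutn (fo par) (A ∆ X)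
          + (q * H49.LS.cutn G (A ∆ D) + H49.LS.cutn (fo par) (A ∆ D)) := by ring

lemma hh_le {par : V → V} (h : Par G par) (q : ℕ) (A : Finset V) :
    HH G q par A ≤ (q + 1) * G.edgeFinset.card := by
  have h1 := H49.LS.cutn_le G A
  have h2 := (fo_cutn G h A).trans h1
  unfold HH
  calc q * H49.LS.cutn G A + H49.LS.cutn (fo par) A
      ≤ q * G.edgeFinset.card + G.edgeFinset.card := Nat.add_le_add (Nat.mul_le_mul_left _ h1) h2
    _ = (q + 1) * G.edgeFinset.card := by ring

lemma hh_flip (par : V → V) (q : ℕ) (A D : Finset V) :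
    (HH G q par (A ∆ D) : ℤ) = HH G q par A + WW G q par A D := by
  unfold HH WW
  push_cast
  rw [H49.LS.cutn_cast, H49.LS.cutn_cast, H49.LS.cutn_cast, H49.LS.cutn_cast,
    H49.NB.cut_flip_set G A D, H49.NB.cut_flip_set (fo par) A D]
  ring

end H99.SX
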