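import Pool.Agent.H99.SX.HLoc
import Pool.Agent.H99.SX.Conf
import Pool.Agent.H49.LS.FewD

/-!
# Few defects for the weighted cut

As `H49.LS.fewD` (file `H49/LS/FewD.lean`): `H49.LS.main` with `r = 1`, `H = HH G q par`, `N = nbr G`, `e = (q + 1) * G.edgeFinset.card`, `β = s * (6 + 1)`, `θ = fun i => th ((fun _ => univ) i)`; `hh_loc`, `hh_le`, `conf_gen`,
`odds_th` (`r = 1`: the disjointness is void). `U = 𝓦.biUnion (nbr G)`. The last property: `hh_flip` and `HH τ ≤ HH (τ ∆ Q)`.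
-/

set_option autoImplicit false
set_option linter.unusedSectionVars false

namespace H99.SX

open Finset H97.Int H49.NB
open scoped Classical symmDiff

variable {V : Type} [Fintype V] [DecidableEq V] (G : SimpleGraph V) [DecidableRel G.Adj]

theorem few6a {q s K : ℕ} (hd : ∀ v, G.degree v ≤ 6) {par : V → V} (hp : Par G par) (hs : 1 ≤ s)
    (hK : 1 ≤ K) (hn : s * K < Fintype.card V) :
    ∃ A U : Finset V, U.card ≤ (7 * s) ^ 2 * K ∧
      (K : ℤ) * |H49.LS.th univ A| ≤ ((2 * s * ((q + 1) * G.edgeFinset.card) + s * K ^ 2 : ℕ) : ℤ) ∧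
      ∀ Q : Finset V, Q.card ≤ s → Disjoint Q U → 0 ≤ WW G q par A Q := by
  obtain ⟨τ, 𝓦, hF, hc, hQ, hb⟩ := H49.LS.main (s := s) (r := 1) (K := K)
    (e := (q + 1) * G.edgeFinset.card) (β := s * (6 + 1)) hs le_rfl hK (by rw [one_mul]; exact hn)
    (N := nbr G) (H := HH G q par) (hh_loc G hp q) (hh_le G hp q)
    (θ := fun i => H49.LS.th ((fun _ => (univ : Finset V)) i))
    (H49.LS.odds_th (fun i hi j hj hij => absurd (by omega) hij))
    (fun τ 𝓦 h u hu => conf_gen G hd τ 𝓦 h u hu)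
  refine ⟨τ, 𝓦.biUnion (nbr G), ?_, ?_, ?_⟩
  · have h1 : ∀ D ∈ 𝓦, (nbr G D).card ≤ (6 + 1) * s := by
      intro D hD
      exact (card_nbr_le G hd D).trans (Nat.mul_le_mul_left _ (hF.1 D hD).2.1)
    calc (𝓦.biUnion (nbr G)).card ≤ 𝓦.card * ((6 + 1) * s) := Finset.card_biUnion_le_card_mul _ _ _ h1
      _ ≤ (s * (6 + 1) * (1 * K)) * ((6 + 1) * s) := Nat.mul_le_mul_right _ hc
      _ = (7 * s) ^ 2 * K := by ring
  · simpa only [sum_range_one, one_mul] using hb
  · intro Q hQs hQd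
    have h := hQ Q hQs hQd
    have h2 := hh_flip G par q τ Q
    have h3 : (HH G q par τ : ℤ) ≤ HH G q par (τ ∆ Q) := by exact_mod_cast h
    linarith

end H99.SX
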