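import Pool.Agent.H99.SX.Defs
import Pool.Agent.H49.NB.ConA

/-!
# Vertices with three and four neighbours in `L`

`Hyp G S₂ L B`: `6 |Q| + E G Q Q ≤ 2 E G Q L` for `Q ⊆ L \ B`, `|Q| ≤ S₂`. `nin_ge3`: `Q = {v}`. `E_lo`: `E G Q L = ∑_{v ∈ Q} nin G v L` (`E_eq_sum_nin`), every term is `3` (`v ∈ Mi`) or `4`. `conn_mu`: `E G Q Q ≥ 2 (|Q| - 1)`
(`cn_edges`); `6 |Q| + 2 |Q| - 2 ≤ 2 (4 |Q| - μ)` with `μ = |Q ∩ Mi|`, so `μ ≤ 1`.
-/

set_option autoImplicit false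
set_option linter.unusedSectionVars false

namespace H99.SX

open Finset H97.Int H49.NB
open scoped Classical symmDiff

variable {V : Type} [Fintype V] [DecidableEq V] (G : SimpleGraph V) [DecidableRel G.Adj]

lemma nin_ge3 {S₂ : ℕ} {L B : Finset V} (hH : Hyp G S₂ L B) (h1 : 1 ≤ S₂) {v : V} (hv : v ∈ L \ B) :
    3 ≤ nin G v L := by
  have h2 := hH {v} (Finset.singleton_subset_iff.2 hv) (by simpa using h1)
  have h3 := E_nonneg G {v} {v}
  rw [Finset.card_singleton] at h2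
  unfold nin
  push_cast at h2
  linarith

lemma E_lo {S₂ : ℕ} {L B : Finset V} (hH : Hyp G S₂ L B) (h1 : 1 ≤ S₂) {Q : Finset V}
    (hQ : Q ⊆ Lo G L B) : E G Q L = 4 * (Q.card : ℤ) - ((Q ∩ Mi G L B).card : ℤ) := by
  have h2 : ∀ v ∈ Q, nin G v L = 4 - (if v ∈ Mi G L B then 1 else 0) := by
    intro v hv
    have h3 := hQ hv
    unfold Lo at h3
    rw [Finset.mem_filter] at h3
    have h4 := nin_ge3 G hH h1 h3.1
    by_cases h5 : nin G v L = 3
    · rw [if_pos (by unfold Mi; exact Finset.mem_filter.2 ⟨h3.1, h5⟩), h5]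
      norm_num
    · rw [if_neg (fun h6 => h5 (by unfold Mi at h6; exact (Finset.mem_filter.1 h6).2))]
      have := h3.2
      omega
  rw [E_eq_sum_nin, Finset.sum_congr rfl h2, Finset.sum_sub_distrib, Finset.sum_const,
    ← Finset.sum_filter, Finset.sum_const, Finset.filter_mem_eq_inter]
  simp only [nsmul_eq_mul, mul_one]
  ring

lemma conn_mu {S₂ : ℕ} {L B : Finset V} (hH : Hyp G S₂ L B) (h1 : 1 ≤ S₂) {Q : Finset V}
    (hQ : Q ⊆ Lo G L B) (hc : Cn G Q) (h0 : Q.Nonempty) (hs : Q.card ≤ S₂) :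
    (Q ∩ Mi G L B).card ≤ 1 := by
  have h2 := hH Q (hQ.trans (Finset.filter_subset _ _)) hs
  have h3 := E_lo G hH h1 hQ
  have h4 := cn_edges G hc h0
  omega

end H99.SX
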