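import Pool.Agent.H99.SX.LcA
import Pool.Agent.H49.NB.Split

/-!
# Large connected sets

Strong induction on `|X|`. If `|X| ≤ 6 r₁ ≤ S₂`: `conn_mu`: `μ ≤ 1`, `r₁ ≤ |X|`. Otherwise `split` with `d = 6`, `s = r₁`: `X = X₁ ∪ X₂`, both smaller (the other one is nonempty); `|X ∩ Mi|` and `|X|` are additive.
-/

set_option autoImplicit false
set_option linter.unusedSectionVars false

namespace H99.SX

open Finset H97.Int H49.NB
open scoped Classical symmDiff

variable {V : Type} [Fintype V] [DecidableEq V] (G : SimpleGraph V) [DecidableRel G.Adj]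

lemma conn_big (hd : ∀ v, G.degree v ≤ 6) {S₂ r₁ : ℕ} {L B : Finset V} (hH : Hyp G S₂ L B)
    (h1 : 1 ≤ r₁) (hS : 6 * r₁ ≤ S₂) {X : Finset V} (hX : X ⊆ Lo G L B) (hc : Cn G X)
    (hr : r₁ ≤ X.card) : r₁ * (X ∩ Mi G L B).card ≤ X.card := by
  induction hm : X.card using Nat.strong_induction_on generalizing X with
  | _ m ih =>
    subst hm
    by_cases hle : X.card ≤ 6 * r₁
    · have h2 := conn_mu G hH (by omega) hX hc (Finset.card_pos.1 (by omega)) (hle.trans hS)
      calc r₁ * (X ∩ Mi G L B).card ≤ r₁ * 1 := Nat.mul_le_mul_left _ h2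
        _ ≤ X.card := by omega
    · obtain ⟨X₁, X₂, hu, hdj, hc1, hc2, hs1, hs2⟩ := split G hd (by norm_num) h1 hc (by omega)
      have hcard : X.card = X₁.card + X₂.card := by
        rw [← hu, Finset.card_union_of_disjoint hdj]
      have hmi : (X ∩ Mi G L B).card = (X₁ ∩ Mi G L B).card + (X₂ ∩ Mi G L B).card := by
        rw [← hu, Finset.union_inter_distrib_right, Finset.card_union_of_disjoint]
        exact Finset.disjoint_of_subset_left Finset.inter_subset_left
          (Finset.disjoint_of_subset_right Finset.inter_subset_left hdj)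
      have h3 := ih X₁.card (by omega) (X := X₁) ((Finset.subset_union_left).trans (hu.le.trans hX)) hc1 hs1 rfl
      have h4 := ih X₂.card (by omega) (X := X₂) ((Finset.subset_union_right).trans (hu.le.trans hX)) hc2 hs2 rfl
      rw [hmi, hcard, mul_add]
      omega

end H99.SX
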