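import Pool.Agent.H99.SX.Defs
import Pool.Agent.H49.NB.ConA

/-!
# The components of a set

Strong induction on `|Z|`: `Z = ∅`: `𝒞 = ∅`. Otherwise `exists_comp`: `C ⊆ Z` nonempty, connected, without edges to `Z \ C`; `𝒞'` for `Z \ C`; `𝒞 = insert C 𝒞'`. A member `D` of `𝒞'` has no edges to `(Z \ C) \ D`, and none to `C` (symmetry
of adjacency), so none to `Z \ D`. Different members are disjoint (`D ⊆ Z \ C`).
-/

set_option autoImplicit false
set_option linter.unusedSectionVars false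

namespace H99.SX

open Finset H97.Int H49.NB
open scoped Classical symmDiff

variable {V : Type} [Fintype V] [DecidableEq V] (G : SimpleGraph V) [DecidableRel G.Adj]

lemma exists_comps (Z : Finset V) : ∃ 𝒞 : Finset (Finset V),
    (∀ C ∈ 𝒞, C ⊆ Z ∧ C.Nonempty ∧ Cn G C ∧ ∀ u ∈ C, ∀ v ∈ Z \ C, ¬ G.Adj u v) ∧
    (∀ C ∈ 𝒞, ∀ D ∈ 𝒞, C ≠ D → Disjoint C D) ∧ 𝒞.biUnion id = Z := by
  induction Z using Finset.strongInduction with
  | H Z ih =>
  rcases Z.eq_empty_or_nonempty with h0 | h0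
  · refine ⟨∅, fun C hC => absurd hC (Finset.notMem_empty C),
      fun C hC => absurd hC (Finset.notMem_empty C), ?_⟩
    rw [h0, Finset.biUnion_empty]
  obtain ⟨C, hCZ, hC0, hCn, hCe⟩ := exists_comp G h0
  have hlt : Z \ C ⊂ Z := by
    refine Finset.ssubset_iff_subset_ne.2 ⟨Finset.sdiff_subset, fun h => ?_⟩
    obtain ⟨v, hv⟩ := hC0
    have h1 : v ∈ Z \ C := by
      rw [h]
      exact hCZ hv
    exact (Finset.mem_sdiff.1 h1).2 hv
  obtain ⟨𝒞', h1, h2, h3⟩ := ih (Z \ C) hlt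
  have hdis : ∀ D ∈ 𝒞', Disjoint C D := by
    intro D hD
    rw [Finset.disjoint_left]
    intro v hvC hvD
    exact (Finset.mem_sdiff.1 ((h1 D hD).1 hvD)).2 hvC
  refine ⟨insert C 𝒞', ?_, ?_, ?_⟩
  · intro D hD
    rcases Finset.mem_insert.1 hD with h | h
    · rw [h]
      exact ⟨hCZ, hC0, hCn, hCe⟩
    · obtain ⟨g1, g2, g3, g4⟩ := h1 D h
      refine ⟨g1.trans Finset.sdiff_subset, g2, g3, fun u hu v hv => ?_⟩
      rw [Finset.mem_sdiff] at hv
      by_cases hvC : v ∈ C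
      · intro hadj
        refine hCe v hvC u ?_ hadj.symm
        exact g1 hu
      · exact g4 u hu v (Finset.mem_sdiff.2 ⟨Finset.mem_sdiff.2 ⟨hv.1, hvC⟩, hv.2⟩)
  · intro D hD D' hD' hne
    rcases Finset.mem_insert.1 hD with h | h <;> rcases Finset.mem_insert.1 hD' with h' | h'
    · exact absurd (h.trans h'.symm) hne
    · rw [h]
      exact hdis D' h'
    · rw [h']
      exact (hdis D h).symm
    · exact h2 D h D' h' hne
  · rw [Finset.biUnion_insert, h3]
    exact Finset.union_sdiff_of_subset hCZ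

end H99.SX
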