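import Pool.Agent.H99.SX.LcA

/-!
# Small components

`small_E`: `Hyp`: `6 |X| + E X X ≤ 2 E X L = 8 |X| - 2 μ` (`E_lo`), `μ ≥ 1`. `small_out`: `μ = 1` (`conn_mu`), `E X L = 4 |X| - 1`, `E X X ≤ 2 |X| - 2`. `L = X ∪ (Lo \ X) ∪ Pp ∪ (L ∩ B)` (disjoint; a vertex of `L \ B` is in `Lo` or in `Pp`: `nin ≤ 4` or
`5 ≤ nin`), `E X (Lo \ X) = 0`, so `E X Pp + E X (L ∩ B) = E X L - E X X ≥ 2 |X| + 1 ≥ 3` (`|X| ≥ 1`).
-/

set_option autoImplicit false
set_option linter.unusedSectionVars false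

namespace H99.SX

open Finset H97.Int H49.NB
open scoped Classical symmDiff

variable {V : Type} [Fintype V] [DecidableEq V] (G : SimpleGraph V) [DecidableRel G.Adj]

lemma small_E {S₂ : ℕ} {L B : Finset V} (hH : Hyp G S₂ L B) (h1 : 1 ≤ S₂) {X : Finset V}
    (hX : X ⊆ Lo G L B) (hs : X.card ≤ S₂) (hm : (X ∩ Mi G L B).Nonempty) :
    E G X L ≤ 4 * (X.card : ℤ) - 1 ∧ E G X X ≤ 2 * (X.card : ℤ) - 2 := by
  have h2 := hH X (hX.trans (Finset.filter_subset _ _)) hs
  have h3 := E_lo G hH h1 hX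
  have h4 := Finset.card_pos.2 hm
  omega

lemma small_out {S₂ : ℕ} {L B : Finset V} (hH : Hyp G S₂ L B) (h1 : 1 ≤ S₂) {X : Finset V}
    (hX : X ⊆ Lo G L B) (hs : X.card ≤ S₂) (hc : Cn G X) (hm : (X ∩ Mi G L B).Nonempty)
    (hno : ∀ u ∈ X, ∀ v ∈ Lo G L B \ X, ¬ G.Adj u v) :
    3 ≤ E G X (Pp G L B) + E G X (L ∩ B) := by
  have hne : X.Nonempty := hm.mono Finset.inter_subset_left
  have h2 := conn_mu G hH h1 hX hc hne hs
  have h3 := E_lo G hH h1 hX
  have h4 := (small_E G hH h1 hX hs hm).2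
  have h5 := Finset.card_pos.2 hne
  have hL1 : L = (L \ B) ∪ (L ∩ B) := (Finset.sdiff_union_inter L B).symm
  have hL2 : L \ B = Lo G L B ∪ Pp G L B := by
    unfold Lo Pp
    rw [← Finset.filter_or]
    refine (Finset.filter_true_of_mem fun v _ => ?_).symm
    omega
  have hL3 : Lo G L B = X ∪ (Lo G L B \ X) := (Finset.union_sdiff_of_subset hX).symm
  have d1 : Disjoint (L \ B) (L ∩ B) :=
    Finset.disjoint_left.2 fun v hv hv' => (Finset.mem_sdiff.1 hv).2 (Finset.mem_inter.1 hv').2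
  have d2 : Disjoint (Lo G L B) (Pp G L B) := by
    refine Finset.disjoint_left.2 fun v hv hv' => ?_
    unfold Lo at hv
    unfold Pp at hv'
    have e1 := (Finset.mem_filter.1 hv).2
    have e2 := (Finset.mem_filter.1 hv').2
    omega
  have d3 : Disjoint X (Lo G L B \ X) := Finset.disjoint_sdiff
  have e1 : E G X L = E G X (L \ B) + E G X (L ∩ B) := by
    conv_lhs => rw [hL1]
    exact E_union_right G d1 X
  have e2 : E G X (L \ B) = E G X (Lo G L B) + E G X (Pp G L B) := by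
    rw [hL2]
    exact E_union_right G d2 X
  have e3 : E G X (Lo G L B) = E G X X + E G X (Lo G L B \ X) := by
    conv_lhs => rw [hL3]
    exact E_union_right G d3 X
  have e4 : E G X (Lo G L B \ X) = 0 := by
    rw [E_eq_sum_nin]
    exact Finset.sum_eq_zero fun u hu => (nin_eq_zero_iff G u _).2 fun v hv => hno u hu v hv
  omega

end H99.SX
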