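import Pool.Agent.H99.SX.Defs

/-!
# A vertex and the small components adjacent to it

`𝒳' =` the members of `𝒳` which contain a neighbour of `v`. Distinct members contain distinct neighbours, so `|𝒳'| ≤ 6` (injection into `neighborFinset v`, or `∑_{X ∈ 𝒳'} nin G v X ≤ nin G v univ ≤ 6` with `1 ≤ nin G v X`).
`Y = 𝒳'.biUnion id`, `a = nin G v Y = nin G v (𝒳.biUnion id)` (the other members have no neighbours of `v`). `Q = insert v Y`, `|Q| ≤ 6 R + 1`. `|Q| = 1 + ∑ |X|`,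
`E Q Q = 2 a + E Y Y`, `E Y Y ≥ ∑ E X X ≥ ∑ (2 |X| - 2)` (`E Y Y = ∑_X E X Y ≥ ∑_X E X X`), `E Q L = nin G v L + ∑ E X L ≤ nin G v L + ∑ (4 |X| - 1)`. `Hyp`:
`6 + 6 ∑ |X| + 2 a + ∑ (2 |X| - 2) ≤ 2 nin G v L + ∑ (8 |X| - 2)`, i.e. `6 + 2 a ≤ 2 nin G v L`.
-/

set_option autoImplicit false
set_option linter.unusedSectionVars false

namespace H99.SX

open Finset H97.Int H49.NB
open scoped Classical symmDiff

variable {V : Type} [Fintype V] [DecidableEq V] (G : SimpleGraph V) [DecidableRel G.Adj]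

private lemma E_biUnion_left' (𝒳 : Finset (Finset V))
    (h2 : ∀ X ∈ 𝒳, ∀ X' ∈ 𝒳, X ≠ X' → Disjoint X X') (T : Finset V) :
    E G (𝒳.biUnion id) T = ∑ X ∈ 𝒳, E G X T := by
  unfold E
  rw [Finset.sum_biUnion]
  · rfl
  · intro X hX X' hX' hne
    exact h2 X hX X' hX' hne

private lemma nin_biUnion' (𝒳 : Finset (Finset V))
    (h2 : ∀ X ∈ 𝒳, ∀ X' ∈ 𝒳, X ≠ X' → Disjoint X X') (v : V) :
    nin G v (𝒳.biUnion id) = ∑ X ∈ 𝒳, nin G v X := by
  unfold nin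
  rw [E_symm, E_biUnion_left' G 𝒳 h2]
  exact Finset.sum_congr rfl fun X _ => E_symm G X {v}

lemma star (hd : ∀ v, G.degree v ≤ 6) {S₂ R : ℕ} {L B : Finset V} (hH : Hyp G S₂ L B)
    (hS : 6 * R + 1 ≤ S₂) {v : V} (hv : v ∈ L \ B) (𝒳 : Finset (Finset V))
    (h1 : ∀ X ∈ 𝒳, X ⊆ L \ B ∧ X.card ≤ R ∧ v ∉ X ∧ 2 * (X.card : ℤ) - 2 ≤ E G X X ∧
      E G X L ≤ 4 * (X.card : ℤ) - 1)
    (h2 : ∀ X ∈ 𝒳, ∀ X' ∈ 𝒳, X ≠ X' → Disjoint X X') :
    nin G v (𝒳.biUnion id) ≤ nin G v L - 3 := by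
  set 𝒴 : Finset (Finset V) := 𝒳.filter fun X => nin G v X ≠ 0 with h𝒴
  have hsub : 𝒴 ⊆ 𝒳 := Finset.filter_subset _ _
  have h2' : ∀ X ∈ 𝒴, ∀ X' ∈ 𝒴, X ≠ X' → Disjoint X X' :=
    fun X hX X' hX' hne => h2 X (hsub hX) X' (hsub hX') hne
  set Y : Finset V := 𝒴.biUnion id with hY
  have ha : nin G v (𝒳.biUnion id) = nin G v Y := by
    rw [nin_biUnion' G 𝒳 h2, hY, nin_biUnion' G 𝒴 h2', h𝒴, Finset.sum_filter_ne_zero]
  -- the number of members
  have hcard : (𝒴.card : ℤ) ≤ 6 := by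
    have h3 : (𝒴.card : ℤ) ≤ ∑ X ∈ 𝒴, nin G v X := by
      have : (𝒴.card : ℤ) = ∑ _X ∈ 𝒴, (1 : ℤ) := by simp
      rw [this]
      refine Finset.sum_le_sum fun X hX => ?_
      have h4 := (Finset.mem_filter.mp hX).2
      have h5 := nin_nonneg G v X
      omega
    have h6 : ∑ X ∈ 𝒴, nin G v X ≤ 6 := by
      rw [← nin_biUnion' G 𝒴 h2']
      calc nin G v (𝒴.biUnion id) ≤ nin G v univ := nin_mono G (Finset.subset_univ _) v
        _ = (G.degree v : ℤ) := nin_univ G v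
        _ ≤ 6 := by exact_mod_cast hd v
    omega
  have hYcard : (Y.card : ℤ) = ∑ X ∈ 𝒴, (X.card : ℤ) := by
    rw [hY, Finset.card_biUnion]
    · push_cast
      rfl
    · intro X hX X' hX' hne
      exact h2' X hX X' hX' hne
  have hYle : (Y.card : ℤ) ≤ 6 * R := by
    rw [hYcard]
    calc ∑ X ∈ 𝒴, (X.card : ℤ) ≤ ∑ _X ∈ 𝒴, (R : ℤ) :=
          Finset.sum_le_sum fun X hX => by exact_mod_cast (h1 X (hsub hX)).2.1
      _ = (𝒴.card : ℤ) * R := by simp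
      _ ≤ 6 * R := by
          have : (0 : ℤ) ≤ R := by positivity
          nlinarith
  have hvY : v ∉ Y := by
    intro h
    obtain ⟨X, hX, hvX⟩ := Finset.mem_biUnion.mp h
    exact (h1 X (hsub hX)).2.2.1 hvX
  have hYsub : Y ⊆ L \ B := by
    intro u hu
    obtain ⟨X, hX, huX⟩ := Finset.mem_biUnion.mp hu
    exact (h1 X (hsub hX)).1 huX
  have hdis : Disjoint ({v} : Finset V) Y := Finset.disjoint_singleton_left.mpr hvY
  have hQsub : ({v} ∪ Y : Finset V) ⊆ L \ B :=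
    Finset.union_subset (Finset.singleton_subset_iff.mpr hv) hYsub
  have hQcard : (({v} ∪ Y : Finset V).card : ℤ) = 1 + Y.card := by
    rw [Finset.card_union_of_disjoint hdis]
    push_cast
    simp
  have hQle : ({v} ∪ Y : Finset V).card ≤ S₂ := by
    have : (({v} ∪ Y : Finset V).card : ℤ) ≤ S₂ := by
      rw [hQcard]
      have : ((6 * R + 1 : ℕ) : ℤ) ≤ S₂ := by exact_mod_cast hS
      push_cast at this
      linarith
    exact_mod_cast this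
  have hmain := hH _ hQsub hQle
  have hEQQ : E G ({v} ∪ Y) ({v} ∪ Y) = 2 * nin G v Y + E G Y Y := by
    rw [E_union_left G hdis, E_union_right G hdis, E_union_right G hdis, E_symm G Y {v}]
    have h0 : E G {v} {v} = 0 := by
      unfold E
      simp [adj_self]
    rw [h0]
    unfold nin
    ring
  have hEQL : E G ({v} ∪ Y) L = nin G v L + ∑ X ∈ 𝒴, E G X L := by
    rw [E_union_left G hdis, hY, E_biUnion_left' G 𝒴 h2']
    rfl
  have hEYY : ∑ X ∈ 𝒴, (2 * (X.card : ℤ) - 2) ≤ E G Y Y := by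
    have h7 : E G Y Y = ∑ X ∈ 𝒴, E G X Y := by
      conv_lhs => rw [hY]
      rw [E_biUnion_left' G 𝒴 h2', ← hY]
    rw [h7]
    refine Finset.sum_le_sum fun X hX => ?_
    refine (h1 X (hsub hX)).2.2.2.1.trans (E_mono_right G ?_ X)
    exact Finset.subset_biUnion_of_mem id hX
  have hEXL : ∑ X ∈ 𝒴, E G X L ≤ ∑ X ∈ 𝒴, (4 * (X.card : ℤ) - 1) :=
    Finset.sum_le_sum fun X hX => (h1 X (hsub hX)).2.2.2.2
  rw [Finset.sum_sub_distrib, ← Finset.mul_sum, ← hYcard] at hEYY hEXL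
  simp only [Finset.sum_const, nsmul_eq_mul] at hEYY hEXL
  rw [hQcard, hEQQ, hEQL] at hmain
  rw [ha]
  linarith

end H99.SX
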