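import Pool.Agent.H99.SX.LcB
import Pool.Agent.H99.SX.LcC
import Pool.Agent.H99.SX.LcD
import Pool.Agent.H99.SX.LcE

/-!
# The family of small components

`𝒞` the components of `Lo G L B` (`exists_comps`), `𝒳` the members `C` with `|C| < r₁` and `(C ∩ Mi).Nonempty`.
(A) `|Mi| = ∑_{C ∈ 𝒞} |C ∩ Mi|` (`Mi ⊆ Lo = ⋃ 𝒞`). `C ∈ 𝒳`: `|C ∩ Mi| ≤ 1` (`conn_mu`), `|C| < r₁` not in `𝒳`: `0`; `|C| ≥ r₁`: `r₁ |C ∩ Mi| ≤ |C|` (`conn_big`). So `r₁ |Mi| ≤ r₁ |𝒳| + ∑ |C| ≤ r₁ |𝒳| + |L|`.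
(B) `small_out` for `X ∈ 𝒳`: `3 |𝒳| ≤ ∑_{X ∈ 𝒳} (E X Pp + E X (L ∩ B)) = E Y Pp + E Y (L ∩ B)`, `Y = 𝒳.biUnion id`. `E Y (L ∩ B) = E (L ∩ B) Y ≤ 6 |B|`; `E Y Pp = ∑_{v ∈ Pp} nin G v Y ≤ ∑_{v ∈ Pp} (nin G v L - 3)`
(`star` with `R = r₁`: `v ∈ Pp` is not in `Lo`; `cn_edges`, `small_E`).
-/

set_option autoImplicit false
set_option linter.unusedSectionVars false

namespace H99.SX

open Finset H97.Int H49.NB
open scoped Classical symmDiff

variable {V : Type} [Fintype V] [DecidableEq V] (G : SimpleGraph V) [DecidableRel G.Adj]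

private lemma lcf_E_biUnion (𝒳 : Finset (Finset V)) (T : Finset V)
    (h2 : ∀ X ∈ 𝒳, ∀ X' ∈ 𝒳, X ≠ X' → Disjoint X X') :
    E G (𝒳.biUnion id) T = ∑ X ∈ 𝒳, E G X T := by
  unfold E
  exact Finset.sum_biUnion (t := id) (fun X hX X' hX' hne => h2 X hX X' hX' hne)

private lemma lcf_lo_sub (L B : Finset V) : Lo G L B ⊆ L \ B := Finset.filter_subset _ _

private lemma lcf_mi_sub (L B : Finset V) : Mi G L B ⊆ Lo G L B := by
  intro v hv
  unfold Mi at hv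
  unfold Lo
  rw [Finset.mem_filter] at hv ⊢
  exact ⟨hv.1, by rw [hv.2]; norm_num⟩

lemma family (hd : ∀ v, G.degree v ≤ 6) {S₂ r₁ : ℕ} {L B : Finset V} (hH : Hyp G S₂ L B)
    (h1 : 1 ≤ r₁) (hS : 6 * r₁ + 1 ≤ S₂) :
    ∃ m : ℤ, (r₁ : ℤ) * ((Mi G L B).card : ℤ) ≤ r₁ * m + L.card ∧
      3 * m ≤ ∑ v ∈ Pp G L B, (nin G v L - 3) + 6 * B.card := by
  obtain ⟨𝒞, hC, hdisj, hU⟩ := exists_comps G (Lo G L B)
  have hS1 : 1 ≤ S₂ := by omega
  set 𝒳 : Finset (Finset V) := 𝒞.filter fun C => C.card < r₁ ∧ (C ∩ Mi G L B).Nonempty with h𝒳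
  have hX𝒞 : ∀ X ∈ 𝒳, X ∈ 𝒞 := fun X hX => (Finset.mem_filter.1 hX).1
  have hXr : ∀ X ∈ 𝒳, X.card < r₁ := fun X hX => (Finset.mem_filter.1 hX).2.1
  have hXm : ∀ X ∈ 𝒳, (X ∩ Mi G L B).Nonempty := fun X hX => (Finset.mem_filter.1 hX).2.2
  have hXd : ∀ X ∈ 𝒳, ∀ X' ∈ 𝒳, X ≠ X' → Disjoint X X' := fun X hX X' hX' hne =>
    hdisj X (hX𝒞 X hX) X' (hX𝒞 X' hX') hne
  refine ⟨(𝒳.card : ℤ), ?_, ?_⟩
  · -- part (A)
    have hMi : (Mi G L B).card ≤ ∑ C ∈ 𝒞, (C ∩ Mi G L B).card := by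
      refine le_trans (Finset.card_le_card ?_) Finset.card_biUnion_le
      intro v hv
      have hv' : v ∈ 𝒞.biUnion id := by rw [hU]; exact lcf_mi_sub G L B hv
      rw [Finset.mem_biUnion] at hv' ⊢
      obtain ⟨C, hC1, hC2⟩ := hv'
      exact ⟨C, hC1, Finset.mem_inter.2 ⟨hC2, hv⟩⟩
    have hsum : ∑ C ∈ 𝒞, C.card ≤ L.card := by
      have e : (𝒞.biUnion id).card = ∑ C ∈ 𝒞, C.card :=
        Finset.card_biUnion (t := id) (fun X hX X' hX' hne => hdisj X hX X' hX' hne)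
      rw [← e, hU]
      exact Finset.card_le_card ((lcf_lo_sub G L B).trans Finset.sdiff_subset)
    have hterm : ∀ C ∈ 𝒞, r₁ * (C ∩ Mi G L B).card ≤
        r₁ * (if C.card < r₁ ∧ (C ∩ Mi G L B).Nonempty then 1 else 0) + C.card := by
      intro C hC1
      obtain ⟨hCs, hCn, hCc, hCe⟩ := hC C hC1
      rcases lt_or_ge C.card r₁ with hlt | hge
      · by_cases hne : (C ∩ Mi G L B).Nonempty
        · rw [if_pos ⟨hlt, hne⟩]
          have h3 := conn_mu G hH hS1 hCs hCc hCn (by omega)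
          have h4 := Nat.mul_le_mul_left r₁ h3
          omega
        · rw [Finset.not_nonempty_iff_eq_empty] at hne
          rw [hne]
          simp
      · have h3 := conn_big G hd hH h1 (by omega) hCs hCc hge
        omega
    have hkey : r₁ * (Mi G L B).card ≤ r₁ * 𝒳.card + L.card := by
      calc r₁ * (Mi G L B).card ≤ r₁ * ∑ C ∈ 𝒞, (C ∩ Mi G L B).card := Nat.mul_le_mul_left _ hMi
        _ = ∑ C ∈ 𝒞, r₁ * (C ∩ Mi G L B).card := Finset.mul_sum _ _ _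
        _ ≤ ∑ C ∈ 𝒞, (r₁ * (if C.card < r₁ ∧ (C ∩ Mi G L B).Nonempty then 1 else 0) + C.card) :=
            Finset.sum_le_sum hterm
        _ = r₁ * 𝒳.card + ∑ C ∈ 𝒞, C.card := by
            rw [Finset.sum_add_distrib, ← Finset.mul_sum, h𝒳, Finset.card_filter]
        _ ≤ r₁ * 𝒳.card + L.card := Nat.add_le_add_left hsum _
    exact_mod_cast hkey
  · -- part (B)
    have hout : ∀ X ∈ 𝒳, (3 : ℤ) ≤ E G X (Pp G L B) + E G X (L ∩ B) := by
      intro X hX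
      obtain ⟨hCs, hCn, hCc, hCe⟩ := hC X (hX𝒞 X hX)
      have := hXr X hX
      exact small_out G hH hS1 hCs (by omega) hCc (hXm X hX) hCe
    have h3 : (3 : ℤ) * 𝒳.card ≤ E G (𝒳.biUnion id) (Pp G L B) + E G (𝒳.biUnion id) (L ∩ B) := by
      rw [lcf_E_biUnion G 𝒳 _ hXd, lcf_E_biUnion G 𝒳 _ hXd, ← Finset.sum_add_distrib]
      calc (3 : ℤ) * 𝒳.card = ∑ _X ∈ 𝒳, (3 : ℤ) := by rw [Finset.sum_const, nsmul_eq_mul]; ring
        _ ≤ _ := Finset.sum_le_sum hout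
    have h4 : E G (𝒳.biUnion id) (L ∩ B) ≤ 6 * B.card := by
      rw [E_symm, E_eq_sum_nin]
      calc ∑ v ∈ L ∩ B, nin G v (𝒳.biUnion id) ≤ ∑ _v ∈ L ∩ B, (6 : ℤ) := by
            refine Finset.sum_le_sum fun v _ => ?_
            refine (nin_mono G (Finset.subset_univ _) v).trans ?_
            rw [nin_univ]
            exact_mod_cast hd v
        _ = 6 * ((L ∩ B).card : ℤ) := by rw [Finset.sum_const, nsmul_eq_mul]; ring
        _ ≤ 6 * B.card := by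
            have := Finset.card_le_card (Finset.inter_subset_right : L ∩ B ⊆ B)
            have h' : ((L ∩ B).card : ℤ) ≤ B.card := by exact_mod_cast this
            linarith
    have h5 : E G (𝒳.biUnion id) (Pp G L B) ≤ ∑ v ∈ Pp G L B, (nin G v L - 3) := by
      rw [E_symm, E_eq_sum_nin]
      refine Finset.sum_le_sum fun v hv => ?_
      unfold Pp at hv
      rw [Finset.mem_filter] at hv
      refine star G hd hH hS hv.1 𝒳 ?_ hXd
      intro X hX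
      obtain ⟨hCs, hCn, hCc, hCe⟩ := hC X (hX𝒞 X hX)
      have hlt := hXr X hX
      refine ⟨hCs.trans (lcf_lo_sub G L B), hlt.le, ?_, ?_, ?_⟩
      · intro hvX
        have := hCs hvX
        unfold Lo at this
        rw [Finset.mem_filter] at this
        linarith [this.2, hv.2]
      · have := cn_edges G hCc hCn
        linarith
      · exact (small_E G hH hS1 hCs (by omega) (hXm X hX)).1
    linarith

end H99.SX
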