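import Pool.Agent.H99.SX.Defs

/-!
# There is a forest

Among the sets `Z` such that for different `z, z' ∈ Z` no vertex `u` is in both closed neighbourhoods (`u = z ∨ Adj z u` and `u = z' ∨ Adj z' u`) take one of maximal size (`Finset.exists_max_image`; `∅` is one).
`par v = v` if `v ∈ Z`; `par v` a neighbour of `v` in `Z` if `v ∉ Z` has one; else a neighbour `u` of `v` which has a neighbour in `Z` (`dite`, `choose`). In the last case `u` exists: `insert v Z` is larger, so some `u` is
in the closed neighbourhoods of `v` and of some `z ∈ Z`; `u = v` would give `v = z` or `Adj z v`, `u = z` would give `Adj v z`; so `Adj v u`, `Adj z u`; and `u ∉ Z` (`u ∈ Z`, `u ≠ z`, `u` is in both closed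
neighbourhoods). A vertex has at most one neighbour in `Z`, and none if it is in `Z`.
`adj`: clear. `two`: `par (par v) ∈ Z` in all cases. `hub`: `par z = z` only for `z ∈ Z` (otherwise `par z` is adjacent to `z`); a neighbour `u` of `z ∈ Z` is not in `Z` and its only neighbour in `Z` is `z`, so `par u = z`.
-/

set_option autoImplicit false
set_option linter.unusedSectionVars false

namespace H99.SX

open Finset H97.Int H49.NB
open scoped Classical symmDiff

variable {V : Type} [Fintype V] [DecidableEq V] (G : SimpleGraph V) [DecidableRel G.Adj]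

theorem exists_par : ∃ par : V → V, Par G par := by
  have hex : ∃ Z : Finset V,
      (∀ z ∈ Z, ∀ z' ∈ Z, ∀ u, (u = z ∨ G.Adj z u) → (u = z' ∨ G.Adj z' u) → z = z') ∧
      ∀ Z' : Finset V,
        (∀ z ∈ Z', ∀ z' ∈ Z', ∀ u, (u = z ∨ G.Adj z u) → (u = z' ∨ G.Adj z' u) → z = z') →
        Z'.card ≤ Z.card := by
    obtain ⟨Z, hZ, hmax⟩ := Finset.exists_max_image
      (Finset.univ.filter (fun Z : Finset V =>
        ∀ z ∈ Z, ∀ z' ∈ Z, ∀ u, (u = z ∨ G.Adj z u) → (u = z' ∨ G.Adj z' u) → z = z'))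
      Finset.card ⟨∅, by simp⟩
    exact ⟨Z, (Finset.mem_filter.1 hZ).2,
      fun Z' h => hmax Z' (Finset.mem_filter.2 ⟨Finset.mem_univ _, h⟩)⟩
  obtain ⟨Z, hP, hmax⟩ := hex
  have hfar : ∀ v, v ∉ Z → (∀ z ∈ Z, ¬ G.Adj v z) → ∃ u, G.Adj v u ∧ ∃ z ∈ Z, G.Adj u z := by
    intro v hv hn
    by_contra hcon
    have hcon' : ∀ u, G.Adj v u → ∀ z ∈ Z, ¬ G.Adj u z := by
      intro u hu z hz huz
      exact hcon ⟨u, hu, z, hz, huz⟩
    have h1 := hmax (insert v Z) (by
      have aux : ∀ z ∈ Z, ∀ u, (u = v ∨ G.Adj v u) → (u = z ∨ G.Adj z u) → False := by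
        intro z hz u h1 h2
        rcases h1 with h1 | h1
        · rcases h2 with h2 | h2
          · apply hv
            rw [← h1, h2]
            exact hz
          · rw [h1] at h2
            exact hn z hz h2.symm
        · rcases h2 with h2 | h2
          · rw [h2] at h1
            exact hn z hz h1
          · exact hcon' u h1 z hz h2.symm
      intro z hz z' hz' u h1 h2
      rcases Finset.mem_insert.1 hz with h3 | h3
      · rcases Finset.mem_insert.1 hz' with h4 | h4
        · rw [h3, h4]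
        · rw [h3] at h1
          exact (aux z' h4 u h1 h2).elim
      · rcases Finset.mem_insert.1 hz' with h4 | h4
        · rw [h4] at h2
          exact (aux z h3 u h2 h1).elim
        · exact hP z h3 z' h4 u h1 h2)
    rw [Finset.card_insert_of_notMem hv] at h1
    omega
  have hch : ∀ v, ∃ p, (v ∈ Z ∧ p = v) ∨ (v ∉ Z ∧ p ∈ Z ∧ G.Adj v p) ∨
      (v ∉ Z ∧ (∀ z ∈ Z, ¬ G.Adj v z) ∧ G.Adj v p ∧ p ∉ Z ∧ ∃ z ∈ Z, G.Adj p z) := by
    intro v
    by_cases hv : v ∈ Z
    · exact ⟨v, Or.inl ⟨hv, rfl⟩⟩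
    · by_cases hn : ∃ z ∈ Z, G.Adj v z
      · obtain ⟨z, hz, hvz⟩ := hn
        exact ⟨z, Or.inr (Or.inl ⟨hv, hz, hvz⟩)⟩
      · have hn' : ∀ z ∈ Z, ¬ G.Adj v z := fun z hz h => hn ⟨z, hz, h⟩
        obtain ⟨u, hu, z, hz, huz⟩ := hfar v hv hn'
        exact ⟨u, Or.inr (Or.inr ⟨hv, hn', hu, fun h => hn' u h hu, z, hz, huz⟩)⟩
  choose par hpar using hch
  have hfix : ∀ v, v ∈ Z → par v = v := by
    intro v hv
    rcases hpar v with h | h | h
    · exact h.2
    · exact absurd hv h.1
    · exact absurd hv h.1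
  have htwo : ∀ v, par (par v) ∈ Z := by
    intro v
    rcases hpar v with h | h | h
    · rw [h.2, h.2]
      exact h.1
    · rw [hfix _ h.2.1]
      exact h.2.1
    · obtain ⟨_, _, _, h4, z, hz, hpz⟩ := h
      rcases hpar (par v) with h' | h' | h'
      · exact absurd h'.1 h4
      · exact h'.2.1
      · exact absurd hpz (h'.2.1 z hz)
  refine ⟨par, ⟨?_, ?_, ?_⟩⟩
  · intro v
    rcases hpar v with h | h | h
    · exact Or.inl h.2
    · exact Or.inr h.2.2
    · exact Or.inr h.2.2.1
  · intro v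
    exact hfix _ (htwo v)
  · intro z hz u hzu
    have hzZ : z ∈ Z := by
      rw [← hz, ← hz]
      have := htwo z
      rw [hz, hz] at this
      rw [hz, hz]
      exact this
    rcases hpar u with h | h | h
    · exfalso
      have h1 := hP z hzZ u h.1 u (Or.inr hzu) (Or.inl rfl)
      rw [← h1] at hzu
      exact G.loopless.irrefl _ hzu
    · exact (hP z hzZ (par u) h.2.1 u (Or.inr hzu) (Or.inr h.2.2.symm)).symm
    · exact absurd hzu.symm (h.2.1 z hzZ)

end H99.SX
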