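import Pool.Agent.H99.SX.Defs
import Pool.Agent.H49.NB.ConA

/-!
# The quotient graph

`f` any map. `quo_deg`: the neighbours of `a` in `quo G f C` are contained in the image under `f` of the neighbours (in `G`) of the vertices of the fibre `{v ∈ C : f v = a}`: `biUnion` over at most `k` vertices of
sets of at most `6` vertices, image (`card_image_le`, `card_biUnion_le_card_mul`). `quo_cn`: for `T ⊆ C.image f`, `T ≠ ∅, C.image f`, the set `T' = {v ∈ C : f v ∈ T}` is nonempty, `≠ C` and `Cn G C` gives an edge `u v`, `u ∈ T'`,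
`v ∈ C \ T'`; `f u ∈ T`, `f v ∉ T`, so `f u ≠ f v`, and they are adjacent in the quotient. `quo_card`: `Finset.card_le_mul_card_image` (every fibre has at most `k` members).
-/

set_option autoImplicit false
set_option linter.unusedSectionVars false

namespace H99.SX

open Finset H97.Int H49.NB
open scoped Classical symmDiff

variable {V : Type} [Fintype V] [DecidableEq V] (G : SimpleGraph V) [DecidableRel G.Adj]

lemma quo_deg {f : V → V} {C : Finset V} {k : ℕ} (hd : ∀ v, G.degree v ≤ 6)
    (hf : ∀ w, (C.filter fun v => f v = w).card ≤ k) (a : V) : (quo G f C).degree a ≤ 6 * k := by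
  have hsub : (quo G f C).neighborFinset a ⊆
      ((C.filter fun v => f v = a).biUnion fun u => G.neighborFinset u).image f := by
    intro b hb
    rw [SimpleGraph.mem_neighborFinset] at hb
    obtain ⟨-, u, hu, v, hv, h1, h2, h3⟩ := hb
    rw [Finset.mem_image]
    refine ⟨v, ?_, h2⟩
    rw [Finset.mem_biUnion]
    refine ⟨u, Finset.mem_filter.2 ⟨hu, h1⟩, ?_⟩
    rw [SimpleGraph.mem_neighborFinset]
    exact h3
  rw [← SimpleGraph.card_neighborFinset_eq_degree]
  refine (Finset.card_le_card hsub).trans (Finset.card_image_le.trans ?_)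
  refine (Finset.card_biUnion_le_card_mul _ _ 6 fun u _ => ?_).trans ?_
  · rw [SimpleGraph.card_neighborFinset_eq_degree]
    exact hd u
  · rw [mul_comm]
    exact Nat.mul_le_mul_left 6 (hf a)

lemma quo_cn {f : V → V} {C : Finset V} (hC : Cn G C) : Cn (quo G f C) (C.image f) := by
  intro T hT hne hneq
  obtain ⟨T', hT'⟩ : ∃ T', T' = C.filter fun v => f v ∈ T := ⟨_, rfl⟩
  have h1 : T' ⊆ C := by
    rw [hT']
    exact Finset.filter_subset _ _
  have h2 : T'.Nonempty := by
    obtain ⟨t, ht⟩ := hne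
    obtain ⟨v, hv, hvt⟩ := Finset.mem_image.1 (hT ht)
    refine ⟨v, ?_⟩
    rw [hT', Finset.mem_filter, hvt]
    exact ⟨hv, ht⟩
  have h3 : T' ≠ C := by
    intro h
    refine hneq (Finset.Subset.antisymm hT ?_)
    intro t ht
    obtain ⟨v, hv, hvt⟩ := Finset.mem_image.1 ht
    rw [← h, hT', Finset.mem_filter] at hv
    rw [← hvt]
    exact hv.2
  obtain ⟨u, hu, v, hv, huv⟩ := hC T' h1 h2 h3
  rw [hT', Finset.mem_filter] at hu
  rw [Finset.mem_sdiff, hT', Finset.mem_filter, not_and] at hv
  have hv2 : f v ∉ T := hv.2 hv.1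
  refine ⟨f u, hu.2, f v, Finset.mem_sdiff.2 ⟨Finset.mem_image_of_mem f hv.1, hv2⟩, ?_, ?_⟩
  · intro h
    exact hv2 (h ▸ hu.2)
  · exact ⟨u, hu.1, v, hv.1, rfl, rfl, huv⟩

lemma quo_card {f : V → V} {C : Finset V} {k : ℕ} (hf : ∀ w, (C.filter fun v => f v = w).card ≤ k) :
    C.card ≤ k * (C.image f).card := by
  exact Finset.card_le_mul_card_image C k fun w _ => hf w

end H99.SX
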