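import Pool.Agent.H99.SX.Defs
import Pool.Agent.H49.NB.ConA

/-!
# Lifting connected sets from the quotient

`X = {v ∈ C : f v ∈ X'}`, `X' ⊆ C.image f` connected in `quo G f C`, the fibres `F w = {v ∈ C : f v = w}` connected in `G`. Let `T ⊆ X`, `T ≠ ∅, X`. If for some `w ∈ X'` the set `T ∩ F w` is nonempty and `≠ F w`: `Cn G (F w)` gives an
edge from `T ∩ F w` to `F w \ T ⊆ X \ T`. Otherwise for `w ∈ X'` either `F w ⊆ T` or `F w` and `T` are disjoint; `T' = {w ∈ X' : F w ⊆ T}` (every `w ∈ X'` has nonempty fibre) is nonempty and `≠ X'`; `Cn` gives `a ∈ T'`,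
`b ∈ X' \ T'`, adjacent in the quotient: `u, v ∈ C`, `f u = a`, `f v = b`, adjacent in `G`; `u ∈ T`, `v ∈ X \ T`.
-/

set_option autoImplicit false
set_option linter.unusedSectionVars false

namespace H99.SX

open Finset H97.Int H49.NB
open scoped Classical symmDiff

variable {V : Type} [Fintype V] [DecidableEq V] (G : SimpleGraph V) [DecidableRel G.Adj]

lemma lift_cn {f : V → V} {C X' : Finset V} (hX : X' ⊆ C.image f) (hc : Cn (quo G f C) X')
    (hf : ∀ w, Cn G (C.filter fun v => f v = w)) : Cn G (C.filter fun v => f v ∈ X') := by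
  intro T hT hne hneq
  by_cases h : ∃ w ∈ X', (∃ v ∈ T, f v = w) ∧ ∃ v ∈ C, f v = w ∧ v ∉ T
  · obtain ⟨w, hw, ⟨v, hv, hvw⟩, ⟨v', hv', hv'w, hv'T⟩⟩ := h
    obtain ⟨a, ha, b, hb, hab⟩ := hf w (T.filter fun v => f v = w)
      (by
        intro x hx
        rw [mem_filter] at hx ⊢
        exact ⟨(mem_filter.1 (hT hx.1)).1, hx.2⟩)
      ⟨v, mem_filter.2 ⟨hv, hvw⟩⟩
      (by
        intro he
        have h1 : v' ∈ T.filter fun v => f v = w := by
          rw [he]
          exact mem_filter.2 ⟨hv', hv'w⟩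
        exact hv'T (mem_filter.1 h1).1)
    rw [mem_filter] at ha
    rw [mem_sdiff, mem_filter, mem_filter] at hb
    refine ⟨a, ha.1, b, ?_, hab⟩
    rw [mem_sdiff, mem_filter]
    exact ⟨⟨hb.1.1, by rw [hb.1.2]; exact hw⟩, fun hbT => hb.2 ⟨hbT, hb.1.2⟩⟩
  · have h' : ∀ w ∈ X', (∃ v ∈ T, f v = w) → ∀ v ∈ C, f v = w → v ∈ T := by
      intro w hw h1 v hv hvw
      by_contra hvT
      exact h ⟨w, hw, h1, v, hv, hvw, hvT⟩
    obtain ⟨t, ht⟩ := hne
    obtain ⟨a, ha, b, hb, hab⟩ := hc (T.image f)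
      (by
        intro x hx
        obtain ⟨y, hy, rfl⟩ := mem_image.1 hx
        exact (mem_filter.1 (hT hy)).2)
      ⟨f t, mem_image_of_mem f ht⟩
      (by
        intro he
        refine hneq (Subset.antisymm hT ?_)
        intro x hx
        rw [mem_filter] at hx
        have h1 : f x ∈ T.image f := by
          rw [he]
          exact hx.2
        obtain ⟨y, hy, hyx⟩ := mem_image.1 h1
        exact h' (f x) hx.2 ⟨y, hy, hyx⟩ x hx.1 rfl)
    obtain ⟨-, u, hu, v, hv, hua, hvb, huv⟩ := hab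
    rw [mem_sdiff] at hb
    obtain ⟨y, hy, hya⟩ := mem_image.1 ha
    have haX : a ∈ X' := by
      rw [← hya]
      exact (mem_filter.1 (hT hy)).2
    refine ⟨u, h' a haX ⟨y, hy, hya⟩ u hu hua, v, ?_, huv⟩
    rw [mem_sdiff, mem_filter]
    refine ⟨⟨hv, by rw [hvb]; exact hb.1⟩, fun hvT => hb.2 ?_⟩
    rw [← hvb]
    exact mem_image_of_mem f hvT

end H99.SX
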