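import Pool.Agent.H99.SX.Defs

/-!
# The root of a vertex inside `C`

`rt par C v = v` if `par v ∉ C`; `= par v` if `par v ∈ C`, `par (par v) ∉ C`; else `par (par v)`. Let `v ∈ C`.
`rt_mem`: by cases. `rt_par` (`par v ∈ C`): by cases on `par (par v) ∈ C`, use `hp.two v`. `rt_idem`: by cases, `rt_par` once or twice. `rt_ball`: `v` is within distance two of `rt v`: `nb G 2 S = nbr G (nbr G S)`, `mem_nbr`, and
`par v = v ∨ Adj v (par v)` (`hp.adj`). `rt_fib`: the fibre is contained in `nb G 2 {w}`, `card_nb_le` (`(6 + 1)^2 = 49`).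
`rt_cn`: `F` the fibre of `w` in `C`. For `v ∈ F`, `v ≠ w`: `par v ∈ C` (else `rt v = v`), `par v ∈ F` (`rt_par`), `par v ≠ v` (else `rt v = v`), so `Adj v (par v)`. Moreover `w = v`, `w = par v` or `w = par (par v)`. Let `T ⊆ F`,
`T ≠ ∅, F`. If `w ∈ T` take `v ∈ F \ T` and go `v, par v, par (par v)` until `w` is reached: the first step into `T` is an edge between `F \ T` and `T`. If `w ∉ T` take `v ∈ T`: the first step out of `T`.
-/

set_option autoImplicit false
set_option linter.unusedSectionVars false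

namespace H99.SX

open Finset H97.Int H49.NB
open scoped Classical symmDiff

variable {V : Type} [Fintype V] [DecidableEq V] (G : SimpleGraph V) [DecidableRel G.Adj]

private lemma rt_step {par : V → V} (hp : Par G par) {U : Finset V} {v : V} (h : par v ∈ U) :
    v ∈ nbr G U := by
  rw [mem_nbr]
  rcases hp.adj v with h1 | h1
  · exact Or.inl (h1 ▸ h)
  · exact Or.inr ⟨par v, h, h1.symm⟩

private lemma rt_e1 {par : V → V} {C : Finset V} {v : V} (h1 : par v ∉ C) : rt par C v = v := by
  simp [rt, h1]

private lemma rt_e2 {par : V → V} {C : Finset V} {v : V} (h1 : par v ∈ C) (h2 : par (par v) ∉ C) :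
    rt par C v = par v := by
  simp [rt, h1, h2]

private lemma rt_e3 {par : V → V} {C : Finset V} {v : V} (h1 : par v ∈ C) (h2 : par (par v) ∈ C) :
    rt par C v = par (par v) := by
  simp [rt, h1, h2]

lemma rt_mem {par : V → V} {C : Finset V} {v : V} (hv : v ∈ C) : rt par C v ∈ C := by
  by_cases h1 : par v ∈ C
  · by_cases h2 : par (par v) ∈ C
    · rw [rt_e3 h1 h2]
      exact h2
    · rw [rt_e2 h1 h2]
      exact h1
  · rw [rt_e1 h1]
    exact hv

lemma rt_par {par : V → V} (hp : Par G par) {C : Finset V} {v : V} (h : par v ∈ C) :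
    rt par C (par v) = rt par C v := by
  have h2 := hp.two v
  unfold rt
  rw [h2]
  by_cases h3 : par (par v) ∈ C <;> simp [h, h3]

lemma rt_idem {par : V → V} (hp : Par G par) {C : Finset V} {v : V} (hv : v ∈ C) :
    rt par C (rt par C v) = rt par C v := by
  by_cases h1 : par v ∈ C
  · by_cases h2 : par (par v) ∈ C
    · have e := rt_e3 h1 h2
      have e1 : rt par C (par (par v)) = par (par v) := by
        rw [rt_par G hp h2, rt_par G hp h1, e]
      rw [e, e1]
    · have e := rt_e2 h1 h2
      have e1 : rt par C (par v) = par v := by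
        rw [rt_par G hp h1, e]
      rw [e, e1]
  · have e := rt_e1 h1
    rw [e, e]

lemma rt_ball {par : V → V} (hp : Par G par) (C : Finset V) (v : V) :
    v ∈ nb G 2 {rt par C v} := by
  by_cases h1 : par v ∈ C
  · by_cases h2 : par (par v) ∈ C
    · rw [rt_e3 h1 h2]
      exact rt_step G hp (rt_step G hp (Finset.mem_singleton_self (par (par v))))
    · rw [rt_e2 h1 h2]
      exact subset_nbr G _ (rt_step G hp (Finset.mem_singleton_self (par v)))
  · rw [rt_e1 h1]
    exact subset_nb G 2 _ (Finset.mem_singleton_self v)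

lemma rt_fib {par : V → V} (hp : Par G par) (hd : ∀ v, G.degree v ≤ 6) (C : Finset V) (w : V) :
    (C.filter fun v => rt par C v = w).card ≤ 49 := by
  have h1 : (C.filter fun v => rt par C v = w) ⊆ nb G 2 {w} := by
    intro v hv
    have h2 := rt_ball G hp C v
    rw [(Finset.mem_filter.1 hv).2] at h2
    exact h2
  have h2 := card_nb_le G hd 2 {w}
  rw [Finset.card_singleton] at h2
  exact (Finset.card_le_card h1).trans (h2.trans (by norm_num))

lemma rt_cn {par : V → V} (hp : Par G par) (C : Finset V) (w : V) :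
    Cn G (C.filter fun v => rt par C v = w) := by
  intro T hT hne hTF
  have step : ∀ v ∈ C.filter (fun v => rt par C v = w), v ≠ w →
      par v ∈ C.filter (fun v => rt par C v = w) ∧ G.Adj v (par v) := by
    intro v hv hvw
    obtain ⟨hvC, hr⟩ := Finset.mem_filter.1 hv
    have h1 : par v ∈ C := by
      by_contra h1
      exact hvw (by rw [← hr]; simp [rt, h1])
    have h2 : par v ≠ v := by
      intro h2
      exact hvw (by rw [← hr]; simp [rt, h2])
    refine ⟨Finset.mem_filter.2 ⟨h1, (rt_par G hp h1).trans hr⟩, ?_⟩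
    rcases hp.adj v with h3 | h3
    · exact absurd h3 h2
    · exact h3
  have reach : ∀ v ∈ C.filter (fun v => rt par C v = w), v = w ∨ par v = w ∨ par (par v) = w := by
    intro v hv
    have hr := (Finset.mem_filter.1 hv).2
    by_cases h1 : par v ∈ C
    · by_cases h2 : par (par v) ∈ C
      · rw [rt_e3 h1 h2] at hr
        exact Or.inr (Or.inr hr)
      · rw [rt_e2 h1 h2] at hr
        exact Or.inr (Or.inl hr)
    · rw [rt_e1 h1] at hr
      exact Or.inl hr
  by_cases hw : w ∈ T
  · obtain ⟨v, hvF, hvT⟩ : ∃ v ∈ C.filter (fun v => rt par C v = w), v ∉ T := by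
      by_contra hcon
      push Not at hcon
      exact hTF (Finset.Subset.antisymm hT hcon)
    have hne1 : v ≠ w := fun h => hvT (h ▸ hw)
    obtain ⟨h1, a1⟩ := step v hvF hne1
    by_cases hp1 : par v ∈ T
    · exact ⟨par v, hp1, v, Finset.mem_sdiff.2 ⟨hvF, hvT⟩, a1.symm⟩
    · have hne2 : par v ≠ w := fun h => hp1 (h ▸ hw)
      obtain ⟨h2, a2⟩ := step _ h1 hne2
      by_cases hp2 : par (par v) ∈ T
      · exact ⟨par (par v), hp2, par v, Finset.mem_sdiff.2 ⟨h1, hp1⟩, a2.symm⟩
      · have hne3 : par (par v) ≠ w := fun h => hp2 (h ▸ hw)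
        rcases reach v hvF with h | h | h
        · exact absurd h hne1
        · exact absurd h hne2
        · exact absurd h hne3
  · obtain ⟨v, hvT⟩ := hne
    have hvF := hT hvT
    have hne1 : v ≠ w := fun h => hw (h ▸ hvT)
    obtain ⟨h1, a1⟩ := step v hvF hne1
    by_cases hp1 : par v ∈ T
    · have hne2 : par v ≠ w := fun h => hw (h ▸ hp1)
      obtain ⟨h2, a2⟩ := step _ h1 hne2
      by_cases hp2 : par (par v) ∈ T
      · have hne3 : par (par v) ≠ w := fun h => hw (h ▸ hp2)
        rcases reach v hvF with h | h | h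
        · exact absurd h hne1
        · exact absurd h hne2
        · exact absurd h hne3
      · exact ⟨par v, hp1, par (par v), Finset.mem_sdiff.2 ⟨h2, hp2⟩, a2⟩
    · exact ⟨v, hvT, par v, Finset.mem_sdiff.2 ⟨h1, hp1⟩, a1⟩

end H99.SX
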