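import Pool.Agent.H99.SX.Fin
import Pool.Agent.H49.LS.Bis
import Pool.Agent.H49.LS.Cnv

/-!
# The plain statement

`six`; `G.degree v = 6` from `(G.neighborSet v).ncard = 6` (`deg_eq` in `H49/LS/Cnv` or `Set.ncard_eq_toFinset_card'`, `card_neighborFinset_eq_degree`); `th univ B = |B| - |Bᶜ|` (`th`, `Finset.inter_univ`, `sdiff` of `univ` is the complement); satisfied:
`uns_iff` (`H49/LS/Bis`): `¬ Uns G B v`, or `W_single`. Take `A = ↑B`; `Set.ncard_coe_finset`. `A` and `Aᶜ` are nonempty if `C √n < n`: otherwise one of them is everything and the difference is `n`. (`six_int` also follows from the lemmas of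
`H49/LS/Cnv`: `sat_one`, `th_ncard`.)
-/

set_option autoImplicit false
set_option linter.unusedSectionVars false

namespace H99.SX

open Finset H97.Int H49.NB
open scoped Classical symmDiff

theorem six_int : ∃ C : ℝ, 0 < C ∧ ∀ (V : Type) [Fintype V] (G : SimpleGraph V),
    (∀ v, (G.neighborSet v).ncard = 6) →
    ∃ A : Set V, |(A.ncard : ℝ) - (Aᶜ.ncard : ℝ)| ≤ C * Real.sqrt (Fintype.card V) ∧
      (∀ v ∈ A, (G.neighborSet v ∩ Aᶜ).ncard ≤ (G.neighborSet v ∩ A).ncard) ∧
      (∀ v ∈ Aᶜ, (G.neighborSet v ∩ A).ncard ≤ (G.neighborSet v ∩ Aᶜ).ncard) ∧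
      (C * Real.sqrt (Fintype.card V) < Fintype.card V → A.Nonempty ∧ Aᶜ.Nonempty) := by
  obtain ⟨C, hC, h⟩ := six
  refine ⟨C, hC, fun V _ G hdeg => ?_⟩
  obtain ⟨B, hB, hth⟩ := h V G (fun v => by rw [← H49.LS.deg_eq]; exact hdeg v)
  have h1 : (H49.LS.th univ B : ℝ) = ((B : Set V).ncard : ℝ) - (((B : Set V)ᶜ).ncard : ℝ) := by
    have h2 := H49.LS.th_ncard (univ : Finset V) B
    rw [Finset.coe_univ, Set.inter_univ, ← Set.compl_eq_univ_sdiff] at h2
    rw [h2]
    push_cast
    rfl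
  rw [h1] at hth
  have hn : ((Set.univ : Set V).ncard : ℝ) = Fintype.card V := by
    rw [Set.ncard_univ, Nat.card_eq_fintype_card]
  refine ⟨(B : Set V), hth, fun v hv => (H49.LS.sat_ncard G hB v).1 hv,
    fun v hv => (H49.LS.sat_ncard G hB v).2 hv, fun hlt => ⟨?_, ?_⟩⟩
  · by_contra hne
    rw [Set.not_nonempty_iff_eq_empty] at hne
    rw [hne, Set.compl_empty, hn, Set.ncard_empty, Nat.cast_zero, zero_sub, abs_neg,
      abs_of_nonneg (Nat.cast_nonneg _)] at hth
    linarith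
  · by_contra hne
    rw [Set.not_nonempty_iff_eq_empty] at hne
    have h3 : (B : Set V) = Set.univ := by
      rw [← compl_compl (B : Set V), hne, Set.compl_empty]
    rw [hne, h3, hn, Set.ncard_empty, Nat.cast_zero, sub_zero,
      abs_of_nonneg (Nat.cast_nonneg _)] at hth
    linarith

end H99.SX
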