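import Pool.Agent.H99.SX.Rt
import Pool.Agent.H99.SX.QG
import Pool.Agent.H99.SX.QL
import Pool.Agent.H49.NB.Split

/-!
# Splitting along the quotient

`f = rt par C`, fibres at most `49`, `quo G f C` has degrees at most `6 * 49 = 294`; `I = C.image f`: `|C| ≤ 49 |I|`, so `294 t < |I|`. `split` (for `quo G f C`, `d = 294`, `s = t`) gives `X' ∪ Y' = I`. `X = {v ∈ C : f v ∈ X'}`, `Y` the same.
`X ∪ Y = C` (`f v ∈ I`), disjoint, connected (`lift_cn`, `rt_cn`), `X' ⊆ X` (`w ∈ X' ⊆ I`: `w = f v`, `w ∈ C` (`rt_mem`), `f w = w` (`rt_idem`)), so `|X| ≥ t`. If `x ∈ X`, `y ∈ Y` are adjacent in `fo par`, then `par x = y` or `par y = x`; in the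
first case `par x ∈ C`, so `f y = f (par x) = f x` (`rt_par`), in `X'` and `Y'`, which are disjoint; the second case is the same.
-/

set_option autoImplicit false
set_option linter.unusedSectionVars false

namespace H99.SX

open Finset H97.Int H49.NB
open scoped Classical symmDiff

variable {V : Type} [Fintype V] [DecidableEq V] (G : SimpleGraph V) [DecidableRel G.Adj]

theorem split0 {par : V → V} (hp : Par G par) (hd : ∀ v, G.degree v ≤ 6) {t : ℕ} (ht : 1 ≤ t)
    {C : Finset V} (hC : Cn G C) (hc : 49 * (294 * t) < C.card) :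
    ∃ X Y : Finset V, X ∪ Y = C ∧ Disjoint X Y ∧ Cn G X ∧ Cn G Y ∧ t ≤ X.card ∧ t ≤ Y.card ∧
      ∀ x ∈ X, ∀ y ∈ Y, ¬ (fo par).Adj x y := by
  have hfib : ∀ w, (C.filter fun v => rt par C v = w).card ≤ 49 := fun w => rt_fib G hp hd C w
  have hcn : ∀ w, Cn G (C.filter fun v => rt par C v = w) := fun w => rt_cn G hp C w
  obtain ⟨f, hf⟩ : ∃ f, f = rt par C := ⟨_, rfl⟩
  rw [← hf] at hfib hcn
  have hmem : ∀ v ∈ C, f v ∈ C := by
    intro v hv
    rw [hf]
    exact rt_mem hv
  have hidem : ∀ v ∈ C, f (f v) = f v := by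
    intro v hv
    rw [hf]
    exact rt_idem G hp hv
  have hpar : ∀ v, par v ∈ C → f (par v) = f v := by
    intro v hv
    rw [hf]
    exact rt_par G hp hv
  have hcard := quo_card hfib
  have hdeg : ∀ a, (quo G f C).degree a ≤ 294 := fun a => quo_deg G hd hfib a
  have hI : 294 * t < (C.image f).card := by
    by_contra hle
    have h1 := Nat.mul_le_mul_left 49 (not_lt.1 hle)
    omega
  obtain ⟨X', Y', hU, hD, hX, hY, hXt, hYt⟩ :=
    split (quo G f C) hdeg (by norm_num) ht (quo_cn G hC) hI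
  have hXI : X' ⊆ C.image f := by
    rw [← hU]
    exact subset_union_left
  have hYI : Y' ⊆ C.image f := by
    rw [← hU]
    exact subset_union_right
  have hsub : ∀ Z ⊆ C.image f, Z ⊆ C.filter fun v => f v ∈ Z := by
    intro Z hZ w hw
    obtain ⟨v, hv, hvw⟩ := mem_image.1 (hZ hw)
    rw [mem_filter]
    rw [← hvw, hidem v hv, hvw]
    refine ⟨?_, hw⟩
    rw [← hvw]
    exact hmem v hv
  have hdis : ∀ w, w ∈ X' → w ∈ Y' → False := fun w h1 h2 => disjoint_left.1 hD h1 h2
  refine ⟨C.filter fun v => f v ∈ X', C.filter fun v => f v ∈ Y', ?_, ?_, lift_cn G hXI hX hcn,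
    lift_cn G hYI hY hcn, hXt.trans (card_le_card (hsub X' hXI)),
    hYt.trans (card_le_card (hsub Y' hYI)), ?_⟩
  · ext v
    rw [mem_union, mem_filter, mem_filter]
    constructor
    · rintro (h | h)
      · exact h.1
      · exact h.1
    · intro hv
      have h1 : f v ∈ X' ∪ Y' := by
        rw [hU]
        exact mem_image_of_mem f hv
      rcases mem_union.1 h1 with h | h
      · exact Or.inl ⟨hv, h⟩
      · exact Or.inr ⟨hv, h⟩
  · rw [disjoint_left]
    intro v h1 h2
    exact hdis _ (mem_filter.1 h1).2 (mem_filter.1 h2).2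
  · intro x hx y hy hxy
    rw [mem_filter] at hx hy
    rcases hxy.2 with h | h
    · have h1 := hpar x (by rw [h]; exact hy.1)
      rw [h] at h1
      refine hdis _ hx.2 ?_
      rw [← h1]
      exact hy.2
    · have h1 := hpar y (by rw [h]; exact hx.1)
      rw [h] at h1
      refine hdis _ hx.2 ?_
      rw [h1]
      exact hy.2

end H99.SX
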