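import Pool.Agent.H99.SX.EnC

/-!
# The large part of an avalanche

`Z = P \ U`, `P = Z ∪ (P ∩ U)`: `W_union_ge`, `W_ge`, `E G Z (P ∩ U) ≤ 6 |P ∩ U|` (`E_symm`, `E_mono_right`, `E_univ_right`): `W G A Z ≤ W G A P + 18 |U| ≤ - 2 |P| + 18 |U|`. `L` from `eng_set`. `|Z \ L| = |Z| - |L| ≤ |P| - |L|`. So
`W G A L ≤ - |P| - |L| + 18 |U|`, and `|L| ≤ |P|`. `W G A L ≥ - 6 |L|` (`W_ge`) gives `|P| ≤ 5 |L| + 18 |U|`.
-/

set_option autoImplicit false
set_option linter.unusedSectionVars false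

namespace H99.SX

open Finset H97.Int H49.NB
open scoped Classical symmDiff

variable {V : Type} [Fintype V] [DecidableEq V] (G : SimpleGraph V) [DecidableRel G.Adj]

theorem target {par : V → V} (hp : Par G par) (hd : ∀ v, G.degree v ≤ 6) {q s s₁ : ℕ} {A U : Finset V}
    (hA : ∀ Q : Finset V, Q.card ≤ s → Disjoint Q U → 0 ≤ WW G q par A Q) (h1 : 1 ≤ s₁)
    (hs : 49 * (294 * s₁) ≤ s) (hq : 6 ≤ q) {P : Finset V} (hP : W G A P ≤ -(2 * (P.card : ℤ))) :
    ∃ L : Finset V, Disjoint L U ∧ (P.card : ℤ) ≤ 5 * L.card + 18 * U.card ∧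
      W G A L ≤ -(2 * (L.card : ℤ)) + 18 * U.card ∧ Eng G q s₁ par A L := by
  have hdis : Disjoint (P \ U) (P ∩ U) :=
    Finset.disjoint_left.mpr fun x hx hx' => (mem_sdiff.mp hx).2 (mem_inter.mp hx').2
  have hun : (P \ U) ∪ (P ∩ U) = P := by
    ext x
    simp only [mem_union, mem_sdiff, mem_inter]
    tauto
  have h2 := W_union_ge G A hdis
  rw [hun] at h2
  have h3 := W_ge G hd A (P ∩ U)
  have h4 : E G (P \ U) (P ∩ U) ≤ 6 * ((P ∩ U).card : ℤ) := by
    rw [E_symm]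
    refine (E_mono_right G (Finset.subset_univ _) _).trans ?_
    rw [E_univ_right]
    calc ∑ v ∈ P ∩ U, (G.degree v : ℤ) ≤ ∑ _v ∈ P ∩ U, (6 : ℤ) :=
          Finset.sum_le_sum fun v _ => by exact_mod_cast hd v
      _ = 6 * ((P ∩ U).card : ℤ) := by
          rw [Finset.sum_const, nsmul_eq_mul]; ring
  have h5 : ((P ∩ U).card : ℤ) ≤ (U.card : ℤ) := by
    exact_mod_cast Finset.card_le_card Finset.inter_subset_right
  have hZU : Disjoint (P \ U) U := Finset.sdiff_disjoint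
  obtain ⟨L, hLZ, hL1, hL2⟩ := eng_set G hp hd hA h1 hs hq (P \ U) hZU
  have h6 : (((P \ U) \ L).card : ℤ) = ((P \ U).card : ℤ) - (L.card : ℤ) := by
    have := Finset.card_sdiff_add_card_eq_card hLZ
    have h' : (((P \ U) \ L).card : ℤ) + (L.card : ℤ) = ((P \ U).card : ℤ) := by
      exact_mod_cast this
    linarith
  have h7 : ((P \ U).card : ℤ) ≤ (P.card : ℤ) := by
    exact_mod_cast Finset.card_le_card Finset.sdiff_subset
  have h8 : (L.card : ℤ) ≤ (P.card : ℤ) := by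
    exact_mod_cast Finset.card_le_card (hLZ.trans Finset.sdiff_subset)
  have h9 := W_ge G hd A L
  push_cast at h3 h9
  refine ⟨L, hZU.mono_left hLZ, ?_, ?_, hL2⟩
  · linarith
  · linarith

end H99.SX
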